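import Pool.Agent.PB.C.Defs

/-!
# PROJECT PB, module C-CHIPC: `∑_n φ_p(Λ_n) ≤ 2 d p χ(p)`, so `χ = ∞` if all `φ_p(S) ≥ 1`

PLAN. `exw p (bxF d n) 0 z w ≤ [z ∈ Λ_n, w ∉ Λ_n] J p (w-z) tau p z` (`pin ≤ tau`,
`Set.inter_subset_left`, `Rch.mono`). For `l1 (w - z) = 1` at most one `n` has `z ∈ Λ_n`, `w ∉ Λ_n`:
if `n < m` both do then `|w i| ≤ |z i| + 1 ≤ n + 1 ≤ m` for all `i` (`|w i - z i| ≤ l1 (w - z) = 1`,
`Finset.single_le_sum`), so `w ∈ Λ_m`. Hence `∑' n, exw p (bxF d n) 0 z w ≤ J p (w-z) tau p z` and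
`∑' n, phi p (bxF d n) 0 ≤ ∑' z, tau p z * ∑' w, J p (w - z) = ofReal p * (2d) * chi` (`nrm_J`,
`Equiv.subRight` shift; `ENNReal.tsum_comm`). If every `phi p (bxF d n) 0 ≥ 1` the left side is `⊤`
(`ENNReal.tsum_const_eq_top_of_ne_zero`).
-/

set_option autoImplicit false
open MeasureTheory Filter Topology
open scoped ENNReal BigOperators

namespace Pool.Agent.PB.S3

variable {d : ℕ}

private theorem cp_box {n m : ℕ} {z w : V d} (h : l1 (w - z) = 1) (hz : z ∈ bx n (0 : V d))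
    (hw : w ∉ bx m (0 : V d)) : m ≤ n := by
  by_contra hlt
  push Not at hlt
  apply hw
  intro i
  have h1 := hz i
  have h2 : |(w - z) i| ≤ 1 := by
    rw [← h]
    exact Finset.single_le_sum (f := fun i => |(w - z) i|) (fun _ _ => abs_nonneg _)
      (Finset.mem_univ i)
  rw [Pi.zero_apply, sub_zero] at h1 ⊢
  rw [Pi.sub_apply] at h2
  have h3 : (n : ℤ) + 1 ≤ m := by exact_mod_cast hlt
  calc |w i| = |(w i - z i) + z i| := by rw [sub_add_cancel]
    _ ≤ |w i - z i| + |z i| := abs_add_le _ _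
    _ ≤ m := by linarith

private theorem cp_exw_le (p : ℝ) (S : Finset (V d)) (z w : V d) :
    exw p S 0 z w ≤ J p (w - z) * tau p z := by
  unfold exw
  split_ifs
  · refine mul_le_mul' le_rfl ?_
    unfold pin tau
    exact measure_mono fun ω hω => Rch.mono Set.inter_subset_left hω
  · exact zero_le

private theorem cp_tsum_le (p : ℝ) (z w : V d) :
    ∑' n : ℕ, exw p (bxF d n) 0 z w ≤ J p (w - z) * tau p z := by
  by_cases hJ : l1 (w - z) = 1
  · by_cases hex : ∃ n : ℕ, z ∈ bxF d n ∧ w ∉ bxF d n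
    · obtain ⟨n0, hz0, hw0⟩ := hex
      rw [tsum_eq_single n0]
      · exact cp_exw_le p _ z w
      · intro m hm
        unfold exw
        rw [if_neg]
        rintro ⟨hz, hw⟩
        rw [mem_bxF] at hz hw hz0 hw0
        exact hm (le_antisymm (cp_box hJ hz0 hw) (cp_box hJ hz hw0))
    · have h0 : ∀ n : ℕ, exw p (bxF d n) 0 z w = 0 := by
        intro n
        unfold exw
        rw [if_neg (fun h => hex ⟨n, h⟩)]
      rw [tsum_congr h0, tsum_zero]
      exact zero_le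
  · have h0 : ∀ n : ℕ, exw p (bxF d n) 0 z w = 0 := by
      intro n
      have := cp_exw_le p (bxF d n) z w
      rw [J_zero_of_ne p hJ, zero_mul] at this
      exact le_antisymm this zero_le
    rw [tsum_congr h0, tsum_zero]
    exact zero_le

theorem sum_phi_le (p : ℝ) : ∑' n : ℕ, phi p (bxF d n) 0 ≤
    ENNReal.ofReal p * (2 * d : ℕ) * chi d p := by
  calc ∑' n : ℕ, phi p (bxF d n) 0
      = ∑' n : ℕ, ∑' z : V d, ∑' w : V d, exw p (bxF d n) 0 z w := rfl
    _ = ∑' z : V d, ∑' w : V d, ∑' n : ℕ, exw p (bxF d n) 0 z w := by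
        refine ENNReal.tsum_comm.trans ?_
        refine tsum_congr fun z => ?_
        exact ENNReal.tsum_comm
    _ ≤ ∑' z : V d, ∑' w : V d, J p (w - z) * tau p z :=
        ENNReal.tsum_le_tsum fun z => ENNReal.tsum_le_tsum fun w => cp_tsum_le p z w
    _ = ∑' z : V d, nrm (J p) * tau p z := by
        refine tsum_congr fun z => ?_
        rw [ENNReal.tsum_mul_right]
        congr 1
        exact (Equiv.subRight z).tsum_eq (fun x => J p x)
    _ = ENNReal.ofReal p * (2 * d : ℕ) * chi d p := by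
        rw [ENNReal.tsum_mul_left, nrm_J]
        rfl

theorem chi_top {p : ℝ} (h : ∀ S : Finset (V d), (0 : V d) ∈ S → 1 ≤ phi p S 0) :
    chi d p = ⊤ := by
  by_contra hne
  have h1 : ∑' n : ℕ, phi p (bxF d n) 0 < ⊤ := by
    refine (sum_phi_le p).trans_lt ?_
    exact ENNReal.mul_lt_top (ENNReal.mul_lt_top ENNReal.ofReal_lt_top
      (ENNReal.natCast_lt_top _)) (lt_top_iff_ne_top.2 hne)
  have h2 : ∑' _n : ℕ, (1 : ℝ≥0∞) ≤ ∑' n : ℕ, phi p (bxF d n) 0 :=
    ENNReal.tsum_le_tsum fun n => h _ (mem_bxF.2 (zero_mem_bx n))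
  rw [ENNReal.tsum_const_eq_top_of_ne_zero one_ne_zero] at h2
  exact absurd (h2.trans_lt h1) (lt_irrefl _)

end Pool.Agent.PB.S3
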