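import Pool.Agent.PB.C.RussoI
import Pool.Agent.PB.AF.TauA

/-!
# PROJECT PB, module C-DIFF: the differential inequality, `θ(p) ≥ (p - p0)/(p (1 - p0))`

PLAN.
* `theta_lim`: `{Cl infinite} = ⋂ n, {RU ∅ n 0 (opn p ω)}` (`rem_empty`; a cluster not contained in any
  box is infinite and an infinite cluster is not contained in the finite box `bxF d n`; a finite
  cluster is contained in some box). If `θ_n(p) ≥ c` for all `n` then `theta d p ≥ c`
  (`measure_iInter_eq_iInf` / `tendsto_measure_iInter_atTop`, antitone in `n` by `bx_mono`).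
* `dct`: Let `θ_n(q) = (thU q ∅ n 0).toReal`. By `russo_ineq` with `U = ∅`, `y = 0`, `phU_empty`
  and `1 ≤ phi q S 0` for `0 ∈ S`: `1 - θ_n(q) = Pr {0 ∈ SU} = ∑' S, Pr {0 ∈ SU, SU = S}
  ≤ ∑' S, Pr {...} * phi q S 0 ≤ ofReal (q (1-q) D)` (in the sum the terms with `0 ∉ S` vanish; the
  first equality: `SU` is finite; partition). So `1 - θ_n(q) ≤ q (1-q) θ_n'(q)` for `p0 < q < 1`.
  `F q = (1 - θ_n q) * (q / (1-q))` has `F' = ((1 - θ_n) - q (1-q) θ_n')/(1-q)^2 ≤ 0`, so `F` is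
  antitone on `(p0, 1)` (`antitoneOn_of_deriv_nonpos`). For `p0 < q < p`: `(1 - θ_n p) p/(1-p) ≤
  (1 - θ_n q) q/(1-q) ≤ q/(1-q)`; let `q → p0` (`0 ≤ p0 < 1`):
  `(1 - θ_n p) p / (1-p) ≤ p0/(1-p0)`, i.e. `θ_n p ≥ (p - p0)/(p (1-p0)) ≥ p - p0`.
-/

set_option autoImplicit false
open MeasureTheory Filter Topology
open scoped ENNReal BigOperators

namespace Pool.Agent.PB.S3

variable {d : ℕ}

private theorem dif_RU {n : ℕ} {O : Set (Sym2 (V d))} :
    RU (∅ : Set (V d)) n 0 O ↔ ∃ t ∉ bx n (0 : V d), Rch O 0 t := by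
  unfold RU RchT
  rw [rem_empty]
  rfl

private theorem dif_bdd (C : Set (V d)) (hC : C.Finite) : ∃ n : ℕ, C ⊆ bx n (0 : V d) := by
  refine ⟨hC.toFinset.sup (fun x => ∑ i, (x i).natAbs), ?_⟩
  intro x hx i
  rw [Pi.zero_apply, sub_zero]
  have h1 : (x i).natAbs ≤ ∑ i, (x i).natAbs :=
    Finset.single_le_sum (f := fun i => (x i).natAbs) (fun _ _ => Nat.zero_le _)
      (Finset.mem_univ i)
  have h2 : ∑ i, (x i).natAbs ≤ hC.toFinset.sup (fun x => ∑ i, (x i).natAbs) :=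
    Finset.le_sup (f := fun x : V d => ∑ i, (x i).natAbs) (hC.mem_toFinset.2 hx)
  have h3 : |x i| = ((x i).natAbs : ℤ) := Int.abs_eq_natAbs (x i)
  rw [h3]
  exact_mod_cast h1.trans h2

theorem theta_lim {p c : ℝ} (h : ∀ n : ℕ, c ≤ (thU p (∅ : Set (V d)) n 0).toReal) :
    c ≤ (theta d p).toReal := by
  set s : ℕ → Set (Om d) := fun n => {ω | RU (∅ : Set (V d)) n 0 (opn p ω)} with hs
  have hm : Antitone s := by
    intro a b hab ω hω
    have h1 : RU (∅ : Set (V d)) b 0 (opn p ω) := hω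
    rw [dif_RU] at h1
    obtain ⟨t, ht, hr⟩ := h1
    show RU (∅ : Set (V d)) a 0 (opn p ω)
    rw [dif_RU]
    exact ⟨t, fun h => ht (bx_mono hab h), hr⟩
  have h1 : Tendsto (Pr d ∘ s) atTop (𝓝 (Pr d (⋂ n, s n))) :=
    tendsto_measure_iInter_atTop
      (fun n => (measurableSet_RU (opn_MES p) ∅ n 0).nullMeasurableSet) hm
      ⟨0, measure_ne_top _ _⟩
  have h2 : Tendsto (fun n => ((Pr d ∘ s) n).toReal) atTop (𝓝 (Pr d (⋂ n, s n)).toReal) :=
    (ENNReal.tendsto_toReal (measure_ne_top _ _)).comp h1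
  have h3 : c ≤ (Pr d (⋂ n, s n)).toReal := ge_of_tendsto' h2 fun n => h n
  refine h3.trans (ENNReal.toReal_mono (measure_ne_top _ _) (measure_mono ?_))
  intro ω hω hfin
  obtain ⟨n, hn⟩ := dif_bdd _ hfin
  have h4 : RU (∅ : Set (V d)) n 0 (opn p ω) := Set.mem_iInter.1 hω n
  rw [dif_RU] at h4
  obtain ⟨t, ht, hr⟩ := h4
  exact ht (hn hr)

private theorem dif_mono (n : ℕ) : Monotone fun q : ℝ => (thU q (∅ : Set (V d)) n 0).toReal := by
  intro q q' hq
  refine ENNReal.toReal_mono (measure_ne_top _ _) (measure_mono ?_)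
  intro ω hω
  exact RU_mono (Pool.Agent.PB.opn_mono hq ω) hω

/-- the differential inequality -/
private theorem dif_ineq (n : ℕ) {q : ℝ} (h0 : 0 < q) (h1 : q < 1)
    (hphi : ∀ S : Finset (V d), (0 : V d) ∈ S → 1 ≤ phi q S 0) :
    ∃ D : ℝ, HasDerivAt (fun q : ℝ => (thU q (∅ : Set (V d)) n 0).toReal) D q ∧
      1 - (thU q (∅ : Set (V d)) n 0).toReal ≤ q * (1 - q) * D := by
  obtain ⟨D, hD, hle⟩ := russo_ineq (∅ : Set (V d)) n 0 h0 h1
  refine ⟨D, hD, ?_⟩
  have hD0 : 0 ≤ D := by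
    rw [← hD.deriv]
    exact (dif_mono (d := d) n).deriv_nonneg
  have hS : MVS (fun ω : Om d => SU (∅ : Set (V d)) n (opn q ω)) := SU_MVS (opn_MES q) ∅ n
  have hA : MeasurableSet {ω : Om d | (0 : V d) ∈ SU (∅ : Set (V d)) n (opn q ω)} := hS 0
  have hinf : Pr d {ω : Om d | (SU (∅ : Set (V d)) n (opn q ω)).Infinite} = 0 := by
    have : {ω : Om d | (SU (∅ : Set (V d)) n (opn q ω)).Infinite} = ∅ := by
      ext ω
      simp only [Set.mem_ofPred_eq, Set.mem_empty_iff_false, iff_false, Set.not_infinite]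
      exact SU_finite _ _ _
    rw [this, measure_empty]
  have h2 : Pr d {ω : Om d | (0 : V d) ∈ SU (∅ : Set (V d)) n (opn q ω)} =
      1 - thU q (∅ : Set (V d)) n 0 := by
    unfold thU
    rw [← prob_compl_eq_one_sub (measurableSet_RU (opn_MES q) ∅ n 0)]
    congr 1
    ext ω
    simp only [SU, Set.mem_ofPred_eq, Set.mem_compl_iff, Set.mem_empty_iff_false,
      not_false_eq_true, true_and, zero_mem_bx]
  have h3 : (1 : ℝ≥0∞) - thU q (∅ : Set (V d)) n 0 ≤ ENNReal.ofReal (q * (1 - q) * D) := by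
    rw [← h2, Pr_split_fin hS hinf hA]
    refine le_trans (ENNReal.tsum_le_tsum fun S => ?_) hle
    rw [phU_empty]
    by_cases h0S : (0 : V d) ∈ S
    · calc Pr d ({ω : Om d | SU (∅ : Set (V d)) n (opn q ω) = (S : Set (V d))} ∩
            {ω | (0 : V d) ∈ SU (∅ : Set (V d)) n (opn q ω)})
          = Pr d {ω : Om d | (0 : V d) ∈ SU (∅ : Set (V d)) n (opn q ω) ∧
              SU (∅ : Set (V d)) n (opn q ω) = (S : Set (V d))} * 1 := by
            rw [mul_one]
            congr 1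
            ext ω
            simp only [Set.mem_inter_iff, Set.mem_ofPred_eq]
            exact and_comm
        _ ≤ _ := by
            gcongr
            exact hphi S h0S
    · have h4 : {ω : Om d | SU (∅ : Set (V d)) n (opn q ω) = (S : Set (V d))} ∩
          {ω | (0 : V d) ∈ SU (∅ : Set (V d)) n (opn q ω)} = ∅ := by
        ext ω
        simp only [Set.mem_inter_iff, Set.mem_ofPred_eq, Set.mem_empty_iff_false, iff_false,
          not_and]
        intro hSU h0'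
        rw [hSU] at h0'
        exact h0S h0'
      rw [h4, measure_empty]
      exact zero_le
  have h5 : (1 : ℝ) - (thU q (∅ : Set (V d)) n 0).toReal =
      ((1 : ℝ≥0∞) - thU q (∅ : Set (V d)) n 0).toReal := by
    have hle1 : thU q (∅ : Set (V d)) n 0 ≤ 1 := prob_le_one
    rw [ENNReal.toReal_sub_of_le hle1 ENNReal.one_ne_top, ENNReal.toReal_one]
  rw [h5]
  exact ENNReal.toReal_le_of_le_ofReal
    (mul_nonneg (mul_nonneg h0.le (by linarith)) hD0) h3

theorem dct_n {p0 : ℝ} (h0 : 0 ≤ p0)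
    (hphi : ∀ q : ℝ, p0 < q → q < 1 → ∀ S : Finset (V d), (0 : V d) ∈ S → 1 ≤ phi q S 0) (n : ℕ)
    {p : ℝ} (hp : p0 < p) (hp1 : p < 1) : p - p0 ≤ (thU p (∅ : Set (V d)) n 0).toReal := by
  set θ : ℝ → ℝ := fun q => (thU q (∅ : Set (V d)) n 0).toReal with hθ
  set F : ℝ → ℝ := fun q => (1 - θ q) * (q / (1 - q)) with hF
  have hder : ∀ q : ℝ, p0 < q → q < 1 → ∃ D', HasDerivAt F D' q ∧ D' ≤ 0 := by
    intro q hq hq1
    have hq0 : 0 < q := lt_of_le_of_lt h0 hq
    obtain ⟨D, hD, hle⟩ := dif_ineq n hq0 hq1 (hphi q hq hq1)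
    have h1q : (1 - q) ≠ 0 := by linarith
    have hd1 : HasDerivAt (fun q : ℝ => 1 - θ q) (-D) q := by
      simpa using hD.const_sub 1
    have hd2 : HasDerivAt (fun q : ℝ => q / (1 - q)) ((1 * (1 - q) - q * (-1)) / (1 - q) ^ 2) q :=
      (hasDerivAt_id q).div ((hasDerivAt_id q).const_sub 1) h1q
    refine ⟨_, hd1.mul hd2, ?_⟩
    have e : -D * (q / (1 - q)) + (1 - θ q) * ((1 * (1 - q) - q * -1) / (1 - q) ^ 2) =
        ((1 - θ q) - q * (1 - q) * D) / (1 - q) ^ 2 := by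
      field_simp
      ring
    rw [e]
    refine div_nonpos_of_nonpos_of_nonneg ?_ (by positivity)
    have : 1 - θ q ≤ q * (1 - q) * D := hle
    linarith
  have hanti : AntitoneOn F (Set.Ioo p0 1) := by
    refine antitoneOn_of_deriv_nonpos (convex_Ioo p0 1) ?_ ?_ ?_
    · intro q hq
      obtain ⟨D', hD', -⟩ := hder q hq.1 hq.2
      exact hD'.continuousAt.continuousWithinAt
    · rw [interior_Ioo]
      intro q hq
      obtain ⟨D', hD', -⟩ := hder q hq.1 hq.2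
      exact hD'.differentiableAt.differentiableWithinAt
    · rw [interior_Ioo]
      intro q hq
      obtain ⟨D', hD', hle⟩ := hder q hq.1 hq.2
      rw [hD'.deriv]
      exact hle
  have hp0' : p0 < 1 := hp.trans hp1
  have hFle : F p ≤ p0 / (1 - p0) := by
    have hlim : Tendsto (fun q : ℝ => q / (1 - q)) (𝓝[>] p0) (𝓝 (p0 / (1 - p0))) := by
      have hc : ContinuousAt (fun q : ℝ => q / (1 - q)) p0 :=
        continuousAt_id.div (continuousAt_const.sub continuousAt_id) (by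
          show (1 : ℝ) - p0 ≠ 0
          linarith)
      exact hc.tendsto.mono_left nhdsWithin_le_nhds
    refine ge_of_tendsto hlim ?_
    have hev : ∀ᶠ q in 𝓝[>] p0, q ∈ Set.Ioo p0 p := Ioo_mem_nhdsGT hp
    filter_upwards [hev] with q hq
    have h1 : F p ≤ F q := hanti ⟨hq.1, hq.2.trans hp1⟩ ⟨hp, hp1⟩ hq.2.le
    refine h1.trans ?_
    have hθ0 : 0 ≤ θ q := ENNReal.toReal_nonneg
    have hq0 : 0 < q := lt_of_le_of_lt h0 hq.1
    have hq1 : q < 1 := hq.2.trans hp1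
    have hpos : 0 ≤ q / (1 - q) := div_nonneg hq0.le (by linarith)
    show (1 - θ q) * (q / (1 - q)) ≤ q / (1 - q)
    nlinarith
  have hp0 : 0 < p := lt_of_le_of_lt h0 hp
  have h2 : (1 - θ p) * (p * (1 - p0)) ≤ p0 * (1 - p) := by
    have h3 : (1 - θ p) * (p / (1 - p)) ≤ p0 / (1 - p0) := hFle
    have h4 : (1 - θ p) * p / (1 - p) ≤ p0 / (1 - p0) := by
      rw [mul_div_assoc]; exact h3
    rw [div_le_div_iff₀ (by linarith) (by linarith)] at h4
    linarith
  show p - p0 ≤ θ p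
  by_contra hcon
  push Not at hcon
  have h5 : 0 < p * (1 - p0) := mul_pos hp0 (by linarith)
  have h6 : (1 - (p - p0)) * (p * (1 - p0)) < (1 - θ p) * (p * (1 - p0)) :=
    mul_lt_mul_of_pos_right (by linarith) h5
  have h7 : 0 ≤ (p - p0) * (1 - p + p * p0) :=
    mul_nonneg (by linarith) (add_nonneg (by linarith) (mul_nonneg hp0.le h0))
  nlinarith

theorem dct {p0 : ℝ} (h0 : 0 ≤ p0)
    (hphi : ∀ q : ℝ, p0 < q → q < 1 → ∀ S : Finset (V d), (0 : V d) ∈ S → 1 ≤ phi q S 0)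
    {p : ℝ} (hp : p0 < p) (hp1 : p < 1) : p - p0 ≤ (theta d p).toReal :=
  theta_lim fun n => dct_n h0 hphi n hp hp1

/-- finite susceptibility implies no percolation: `theta * ∞ ≤ chi` (`chi = ∫⁻ encard (Cl)`) -/
theorem theta_of_chi {p : ℝ} (h : chi d p < ⊤) : theta d p = 0 := by
  have h1 : ∑' x : V d, Pr d {ω : Om d | Rch (opn p ω) 0 x} ≠ ∞ := h.ne
  have h2 := measure_limsup_cofinite_eq_zero h1
  rw [Filter.cofinite.limsup_set_eq] at h2
  exact h2

end Pool.Agent.PB.S3
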