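import Pool.Agent.PB.C.Defs

/-!
# PROJECT PB, module C-POLY: probabilities of events about finitely many edges are polynomials in `p`
-/

set_option autoImplicit false
open MeasureTheory Filter Topology
open scoped ENNReal BigOperators

namespace Pool.Agent.PB.S3

variable {d : ℕ}

theorem loc_poly (L : Finset (Sym2 (V d))) (hL : ∀ e ∈ L, e ∈ (lat d).edgeSet)
    {f : Set (Sym2 (V d)) → Prop}
    (hf : ∀ O : Set (Sym2 (V d)), O ⊆ (lat d).edgeSet → (f O ↔ f (O ∩ (L : Set (Sym2 (V d)))))) :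
    ∃ F : ℝ → ℝ, ContDiff ℝ ⊤ F ∧
      ∀ p ∈ Set.Icc (0 : ℝ) 1, (Pr d {ω | f (opn p ω)}).toReal = F p := by
  classical
  set A : Finset (Sym2 (V d)) → Set (Om d) := fun T => {_ω | f (T : Set (Sym2 (V d)))} with hA
  refine ⟨fun p => ∑ T ∈ L.powerset, (∏ e ∈ L, if e ∈ T then p else 1 - p) * (Pr d (A T)).toReal,
    ?_, ?_⟩
  · refine ContDiff.sum fun T _ => ?_
    refine ContDiff.mul ?_ contDiff_const
    refine contDiff_prod fun e _ => ?_
    split_ifs
    · exact contDiff_id
    · exact contDiff_const.sub contDiff_id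
  · intro p hp
    have e1 : {ω : Om d | f (opn p ω)} = {ω : Om d | ω ∈ A (opL L p ω)} := by
      ext ω
      have h1 : opn p ω ⊆ (lat d).edgeSet := fun e he => he.1
      show f (opn p ω) ↔ f (opL L p ω : Set (Sym2 (V d)))
      rw [coe_opL hL, ← hf _ h1]
    rw [e1]
    exact Pr_opL_formula L (A := A) (fun T _ => MeasurableSet.const _)
      (fun T _ => fun ω ω' _ => rfl) hp.1 hp.2

private theorem exw_eq {p : ℝ} {S : Finset (V d)} {y z w : V d} (h : z ∈ S ∧ w ∉ S) :
    exw p S y z w = J p (w - z) * pin p S y z := by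
  classical
  unfold exw
  rw [if_pos h]

private theorem exw_zero {p : ℝ} {S : Finset (V d)} {y z w : V d} (h : ¬ (z ∈ S ∧ w ∉ S)) :
    exw p S y z w = 0 := by
  classical
  unfold exw
  rw [if_neg h]

private theorem pin_le_one (p : ℝ) (S : Finset (V d)) (y z : V d) : pin p S y z ≤ 1 :=
  prob_le_one

theorem phi_finite_sum (p : ℝ) (S : Finset (V d)) (y : V d) : phi p S y =
    ∑ z ∈ S, ∑ e ∈ U1 d, exw p S y z (z + e) := by
  rw [phi_eq, tsum_eq_sum (s := S)]
  · refine Finset.sum_congr rfl fun z hz => ?_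
    have h := (Equiv.addLeft z).tsum_eq (fun w => exw p S y z w)
    rw [← h]
    simp only [Equiv.coe_addLeft]
    rw [tsum_eq_sum (s := U1 d)]
    intro e he
    by_cases hc : z ∈ S ∧ z + e ∉ S
    · rw [exw_eq hc, add_sub_cancel_left, J_zero_of_ne p (fun h => he ((mem_U1 e).2 h)), zero_mul]
    · exact exw_zero hc
  · intro z hz
    rw [ENNReal.tsum_eq_zero]
    intro w
    exact exw_zero fun h => hz h.1

theorem phi_lt_top (p : ℝ) (S : Finset (V d)) (y : V d) : phi p S y < ⊤ := by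
  rw [phi_finite_sum]
  refine ENNReal.sum_lt_top.2 fun z _ => ENNReal.sum_lt_top.2 fun e he => ?_
  by_cases hc : z ∈ S ∧ z + e ∉ S
  · rw [exw_eq hc, add_sub_cancel_left, J_of_eq p ((mem_U1 e).1 he)]
    exact ENNReal.mul_lt_top ENNReal.ofReal_lt_top
      (lt_of_le_of_lt (pin_le_one p S y z) ENNReal.one_lt_top)
  · rw [exw_zero hc]; exact ENNReal.zero_lt_top

theorem phi_mono {p q : ℝ} (h : p ≤ q) (S : Finset (V d)) (y : V d) : phi p S y ≤ phi q S y := by
  rw [phi_finite_sum, phi_finite_sum]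
  refine Finset.sum_le_sum fun z _ => Finset.sum_le_sum fun e _ => ?_
  by_cases hc : z ∈ S ∧ z + e ∉ S
  · rw [exw_eq hc, exw_eq hc]
    refine mul_le_mul' (J_mono h _) (measure_mono fun ω hω => ?_)
    exact Rch.mono (Set.inter_subset_inter_left _ (opn_mono h ω)) hω
  · rw [exw_zero hc, exw_zero hc]

private theorem pin_poly (S : Finset (V d)) (y z : V d) :
    ∃ F : ℝ → ℝ, ContDiff ℝ ⊤ F ∧
      ∀ p ∈ Set.Icc (0 : ℝ) 1, pin p S y z = ENNReal.ofReal (F p) := by
  classical
  obtain ⟨F, hF, h⟩ := loc_poly (d := d) ((tE S).filter (fun e => e ∈ ins (S : Set (V d))))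
    (fun e he => (mem_tE.1 (Finset.mem_filter.1 he).1).1)
    (f := fun O => Rch (O ∩ ins (S : Set (V d))) y z) (by
      intro O hO
      have : O ∩ ins (S : Set (V d)) =
          O ∩ ((tE S).filter (fun e => e ∈ ins (S : Set (V d))) : Finset (Sym2 (V d))) ∩
            ins (S : Set (V d)) := by
        ext e
        simp only [Set.mem_inter_iff, Finset.coe_filter, Set.mem_ofPred_eq]
        constructor
        · rintro ⟨h1, h2⟩
          refine ⟨⟨h1, ?_, h2⟩, h2⟩
          refine mem_tE.2 ⟨hO h1, ?_⟩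
          induction e using Sym2.ind with
          | _ a b => exact ⟨a, Sym2.mem_mk_left a b, h2 a (Sym2.mem_mk_left a b)⟩
        · rintro ⟨⟨h1, -⟩, h2⟩
          exact ⟨h1, h2⟩
      rw [← this])
  refine ⟨F, hF, fun p hp => ?_⟩
  rw [← h p hp, ENNReal.ofReal_toReal (measure_ne_top _ _)]
  rfl

theorem phi_cont (S : Finset (V d)) (y : V d) :
    ContinuousOn (fun p : ℝ => phi p S y) (Set.Icc 0 1) := by
  have h1 : (fun p : ℝ => phi p S y) =
      fun p : ℝ => ∑ z ∈ S, ∑ e ∈ U1 d, exw p S y z (z + e) := by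
    funext p; exact phi_finite_sum p S y
  rw [h1]
  refine continuousOn_finsetSum _ fun z _ => continuousOn_finsetSum _ fun e he => ?_
  by_cases hc : z ∈ S ∧ z + e ∉ S
  · obtain ⟨F, hF, h⟩ := pin_poly S y z
    have h2 : ContinuousOn (fun p : ℝ => ENNReal.ofReal (p * F p)) (Set.Icc 0 1) :=
      (ENNReal.continuous_ofReal.comp (continuous_id.mul hF.continuous)).continuousOn
    refine h2.congr fun p hp => ?_
    show exw p S y z (z + e) = ENNReal.ofReal (p * F p)
    rw [exw_eq hc, add_sub_cancel_left, J_of_eq p ((mem_U1 e).1 he), h p hp,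
      ENNReal.ofReal_mul hp.1]
  · have h3 : (fun p : ℝ => exw p S y z (z + e)) = fun _ => 0 := by
      funext p; exact exw_zero hc
    rw [h3]
    exact continuousOn_const

/-- `φ_p({0}) = 2 d p` -/
theorem phi_single (p : ℝ) : phi p {0} (0 : V d) = ENNReal.ofReal p * (2 * d : ℕ) := by
  rw [phi_finite_sum, Finset.sum_singleton]
  have h1 : ∀ e ∈ U1 d, exw p ({0} : Finset (V d)) 0 0 (0 + e) = ENNReal.ofReal p := by
    intro e he
    have h2 : l1 e = 1 := (mem_U1 e).1 he
    have hne : e ≠ 0 := by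
      rintro rfl
      simp [l1] at h2
    have hc : (0 : V d) ∈ ({0} : Finset (V d)) ∧ (0 : V d) + e ∉ ({0} : Finset (V d)) := by
      simp [hne]
    rw [exw_eq hc, add_sub_cancel_left, J_of_eq p h2]
    have h3 : pin p ({0} : Finset (V d)) 0 0 = 1 := by
      unfold pin
      have : {ω : Om d | Rch (opn p ω ∩ ins (({0} : Finset (V d)) : Set (V d))) 0 0} =
          Set.univ := by
        ext ω; simp only [Set.mem_ofPred_eq, Set.mem_univ, iff_true]; exact Rch.refl _ _
      rw [this, measure_univ]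
    rw [h3, mul_one]
  rw [Finset.sum_congr rfl h1, Finset.sum_const, card_U1, nsmul_eq_mul, mul_comm]

end Pool.Agent.PB.S3
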