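import Pool.Agent.PB.C.Mom
import Pool.Agent.PB.C.Diff
import Pool.Agent.PB.C.ChiPc
import Pool.Agent.PB.C.Poly

/-!
# PROJECT PB, module C-SHARP: sharpness, the fields of `Sub3` and of `Crit` from section 3
-/

set_option autoImplicit false
open MeasureTheory Filter Topology
open scoped ENNReal BigOperators

namespace Pool.Agent.PB.S3

variable {d : ℕ}

theorem le_pc_of_phi (hd : 1 ≤ d) {p : ℝ} {S : Finset (V d)} (h0 : (0 : V d) ∈ S)
    (h : phi p S 0 < 1) : p ≤ pc d :=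
  le_csSup ⟨1, AFB.tauA_bdd hd⟩ (theta_of_chi (chi_of_phi h0 h))

theorem pc_pos (hd : 1 ≤ d) : 0 < pc d := by
  have hd0 : (0 : ℝ) < d := by exact_mod_cast hd
  have h1 : phi (1 / (4 * d) : ℝ) {0} (0 : V d) < 1 := by
    rw [phi_single]
    have : ENNReal.ofReal (1 / (4 * d)) * ((2 * d : ℕ) : ℝ≥0∞) = ENNReal.ofReal (1 / 2) := by
      rw [← ENNReal.ofReal_natCast, ← ENNReal.ofReal_mul (by positivity)]
      congr 1
      push_cast
      field_simp
      norm_num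
    rw [this]
    exact ENNReal.ofReal_lt_one.2 (by norm_num)
  have h2 := le_pc_of_phi hd (Finset.mem_singleton_self (0 : V d)) h1
  have : (0 : ℝ) < 1 / (4 * d) := by positivity
  linarith

theorem phi_lt_of_lt (hd : 1 ≤ d) {p : ℝ} (hp : p < pc d) :
    ∃ S : Finset (V d), (0 : V d) ∈ S ∧ phi p S 0 < 1 := by
  by_contra hcon
  push Not at hcon
  set p0 := max p 0 with hp0
  have h1 : p0 < pc d := max_lt hp (pc_pos hd)
  have hpc1 := AFB.pc_le_one hd
  have hphi : ∀ q : ℝ, p0 < q → q < 1 → ∀ S : Finset (V d), (0 : V d) ∈ S → 1 ≤ phi q S 0 :=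
    fun q hq _ S hS => (hcon S hS).trans (phi_mono ((le_max_left _ _).trans hq.le) S 0)
  have h2 := dct (le_max_right p 0) hphi (p := (p0 + pc d) / 2) (by linarith) (by linarith)
  rw [AFB.theta_eq_zero hd (by linarith)] at h2
  simp only [ENNReal.toReal_zero] at h2
  linarith

theorem sub3 (hd : 1 ≤ d) : AFB.Sub3 d where
  pc_pos := pc_pos hd
  chi_lt := fun p hp => by
    obtain ⟨S, h0, h⟩ := phi_lt_of_lt hd hp
    exact chi_of_phi h0 h
  mom_lt := fun p hp => by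
    obtain ⟨S, h0, h⟩ := phi_lt_of_lt hd hp
    exact mom_of_phi h0 h

theorem phi_ge (hd : 1 ≤ d) (hpc : pc d < 1) (S : Finset (V d)) (h0 : (0 : V d) ∈ S) :
    1 ≤ phi (pc d) S 0 := by
  by_contra hcon
  push Not at hcon
  have hc := (phi_cont S (0 : V d)) (pc d) ⟨(pc_pos hd).le, hpc.le⟩
  have h1 : ∀ᶠ q in 𝓝[Set.Icc 0 1] (pc d), phi q S (0 : V d) < 1 := hc.eventually_lt_const hcon
  have h2 : ∃ q, pc d < q ∧ q < 1 ∧ phi q S (0 : V d) < 1 := by
    rw [eventually_nhdsWithin_iff] at h1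
    obtain ⟨u, b, hb, hsub⟩ := (mem_nhds_iff_exists_Ioo_subset.1 h1)
    obtain ⟨q, hq1, hq2⟩ := exists_between (lt_min hb.2 hpc)
    refine ⟨q, hq1, hq2.trans_le (min_le_right _ _), hsub ⟨hb.1.trans hq1,
      hq2.trans_le (min_le_left _ _)⟩ ⟨((pc_pos hd).trans hq1).le,
      (hq2.trans_le (min_le_right _ _)).le⟩⟩
  obtain ⟨q, hq1, -, hq3⟩ := h2
  exact absurd (le_pc_of_phi hd h0 hq3) (not_le.2 hq1)

theorem theta_ge (hd : 1 ≤ d) (hpc : pc d < 1) :
    ∃ c : ℝ, 0 < c ∧ ∀ p : ℝ, pc d < p → p ≤ 1 → c * (p - pc d) ≤ thr d p := by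
  refine ⟨1, one_pos, fun p hp hp1 => ?_⟩
  rw [one_mul]
  have hphi : ∀ q : ℝ, pc d < q → q < 1 → ∀ S : Finset (V d), (0 : V d) ∈ S → 1 ≤ phi q S 0 :=
    fun q hq _ S hS => (phi_ge hd hpc S hS).trans (phi_mono hq.le S 0)
  rcases hp1.lt_or_eq with h | rfl
  · exact dct (pc_pos hd).le hphi hp h
  · show (1 : ℝ) - pc d ≤ (theta d 1).toReal
    rw [AFB.theta_one hd le_rfl]
    simp only [ENNReal.toReal_one]
    linarith [pc_pos hd]

theorem chi_pc (hd : 1 ≤ d) (hpc : pc d < 1) : chi d (pc d) = ⊤ := chi_top (phi_ge hd hpc)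

end Pool.Agent.PB.S3
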