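import Pool.Agent.PB.P.BKw
import Pool.Agent.PB.P.Conv
import Pool.Agent.PB.Russo
import Pool.Agent.PB.Crit

/-!
# PROJECT PB, Section 3 (Duminil-Copin and Tassion): definitions and basic facts.

`RU U n y O`: `y` is connected to the complement of the box `bx n 0` off `U`.
`SU U n O`: vertices of the box, not in `U`, which are not connected to the complement of the box
off `U`. `phU p U S y` = `φ_p^U(S; y)`.
-/

set_option autoImplicit false
open MeasureTheory Filter Topology
open scoped ENNReal BigOperators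

namespace Pool.Agent.PB.S3

variable {d : ℕ}

/-- the box as a finset -/
noncomputable def bxF (d n : ℕ) : Finset (V d) :=
  Fintype.piFinset (fun _ : Fin d => Finset.Icc (-(n : ℤ)) n)

theorem mem_bxF {n : ℕ} {x : V d} : x ∈ bxF d n ↔ x ∈ bx n (0 : V d) := by
  unfold bxF bx
  rw [Fintype.mem_piFinset]
  simp only [Finset.mem_Icc, Set.mem_ofPred_eq, Pi.zero_apply, sub_zero, abs_le]

theorem coe_bxF (n : ℕ) : ((bxF d n : Finset (V d)) : Set (V d)) = bx n 0 := by
  ext x; rw [Finset.mem_coe, mem_bxF]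

theorem zero_mem_bx (n : ℕ) : (0 : V d) ∈ bx n (0 : V d) := by
  intro i; simp

theorem bx_mono {m n : ℕ} (h : m ≤ n) : bx m (0 : V d) ⊆ bx n 0 := by
  intro x hx i
  have := hx i
  have h2 : (m : ℤ) ≤ n := by exact_mod_cast h
  exact this.trans h2

/-- the lattice edges touching a finite set -/
noncomputable def tE (K : Finset (V d)) : Finset (Sym2 (V d)) := by
  classical exact K.biUnion fun x => (U1 d).image fun e => s(x, x + e)

theorem mem_tE {K : Finset (V d)} {e : Sym2 (V d)} :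
    e ∈ tE K ↔ e ∈ (lat d).edgeSet ∧ e ∈ touch (K : Set (V d)) := by
  classical
  unfold tE
  simp only [Finset.mem_biUnion, Finset.mem_image]
  constructor
  · rintro ⟨x, hx, a, ha, rfl⟩
    refine ⟨?_, x, Sym2.mem_mk_left _ _, hx⟩
    rw [SimpleGraph.mem_edgeSet]
    show l1 (x + a - x) = 1
    rw [add_sub_cancel_left]
    exact (mem_U1 a).1 ha
  · rintro ⟨h1, x, hx, hxK⟩
    obtain ⟨y, rfl⟩ := Sym2.mem_iff_exists.1 hx
    exact ⟨x, hxK, y - x, (mem_U1 (y - x)).2 h1, by rw [add_sub_cancel]⟩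

/-- `y` is connected to the complement of the box `bx n 0` off `U` -/
def RU (U : Set (V d)) (n : ℕ) (y : V d) (O : Set (Sym2 (V d))) : Prop :=
  RchT ((Del.ofSet U).rem O) y (bx n (0 : V d))ᶜ

/-- vertices of the box, not in `U`, not connected to the complement of the box off `U` -/
def SU (U : Set (V d)) (n : ℕ) (O : Set (Sym2 (V d))) : Set (V d) :=
  {v | v ∈ bx n (0 : V d) ∧ v ∉ U ∧ ¬ RU U n v O}

/-- `θ^U_{y,n}(p)` -/
noncomputable def thU (p : ℝ) (U : Set (V d)) (n : ℕ) (y : V d) : ℝ≥0∞ :=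
  Pr d {ω | RU U n y (opn p ω)}

/-- `φ^U_p(S; y)` -/
noncomputable def phU (p : ℝ) (U : Set (V d)) (S : Finset (V d)) (y : V d) : ℝ≥0∞ := by
  classical exact
    ∑' z : V d, ∑' w : V d, (if z ∈ S ∧ w ∉ S ∧ w ∉ U then
      (J p (w - z) * Pr d {ω | Rch (opn p ω ∩ ins (S : Set (V d))) y z}) else 0)

theorem phU_empty (p : ℝ) (S : Finset (V d)) (y : V d) : phU p ∅ S y = phi p S y := by
  unfold phU phi
  simp

theorem rem_empty {W : Type*} (O : Set (Sym2 W)) : (Del.ofSet (∅ : Set W)).rem O = O := by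
  rw [Del.ofSet_rem]; ext e; simp

theorem RU_mono {U : Set (V d)} {n : ℕ} {y : V d} {O O' : Set (Sym2 (V d))} (h : O ⊆ O')
    (hr : RU U n y O) : RU U n y O' := by
  obtain ⟨t, ht, hr⟩ := hr
  exact ⟨t, ht, hr.mono (Del.rem_mono _ h)⟩

theorem measurableSet_RU {Ω : Type*} [MeasurableSpace Ω] {O : Ω → Set (Sym2 (V d))} (hO : MES O)
    (U : Set (V d)) (n : ℕ) (y : V d) : MeasurableSet {ω | RU U n y (O ω)} :=
  (hO.rem _).rchT (MVS.const _) y

theorem SU_MVS {Ω : Type*} [MeasurableSpace Ω] {O : Ω → Set (Sym2 (V d))} (hO : MES O)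
    (U : Set (V d)) (n : ℕ) : MVS (fun ω => SU U n (O ω)) := fun v => by
  have : {ω | v ∈ SU U n (O ω)} = {_ω | v ∈ bx n (0 : V d) ∧ v ∉ U} ∩ {ω | RU U n v (O ω)}ᶜ := by
    ext ω
    simp only [SU, Set.mem_ofPred_eq, Set.mem_inter_iff, Set.mem_compl_iff, and_assoc]
  rw [this]
  exact (MeasurableSet.const _).inter (measurableSet_RU hO U n v).compl

theorem SU_subset (U : Set (V d)) (n : ℕ) (O : Set (Sym2 (V d))) : SU U n O ⊆ bx n 0 :=
  fun _ h => h.1

theorem SU_finite (U : Set (V d)) (n : ℕ) (O : Set (Sym2 (V d))) : (SU U n O).Finite := by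
  refine Set.Finite.subset ?_ (SU_subset U n O)
  rw [← coe_bxF]; exact Finset.finite_toSet _

/-- the probability that a given edge is open -/
theorem Pr_edge_le (p : ℝ) (z w : V d) :
    Pr d {ω : Om d | s(z, w) ∈ opn p ω} ≤ J p (w - z) := by
  by_cases h : l1 (w - z) = 1
  · rw [J_of_eq p h, Pr_edge p (e := s(z, w)) (by rw [SimpleGraph.mem_edgeSet]; exact h)]
    exact ENNReal.ofReal_le_ofReal (min_le_left _ _)
  · have : {ω : Om d | s(z, w) ∈ opn p ω} = ∅ := by
      ext ω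
      simp only [Set.mem_ofPred_eq, Set.mem_empty_iff_false, iff_false]
      intro hc
      exact h ((SimpleGraph.mem_edgeSet _).1 hc.1)
    rw [this]; simp

/-- `P_p(y ↔ z in S)` -/
noncomputable def pin (p : ℝ) (S : Finset (V d)) (y z : V d) : ℝ≥0∞ :=
  Pr d {ω | Rch (opn p ω ∩ ins (S : Set (V d))) y z}

/-- the exit weights: `φ_p(S; y) = Σ_{z,w} exw p S y z w` -/
noncomputable def exw (p : ℝ) (S : Finset (V d)) (y z w : V d) : ℝ≥0∞ := by
  classical exact if z ∈ S ∧ w ∉ S then J p (w - z) * pin p S y z else 0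

theorem phi_eq (p : ℝ) (S : Finset (V d)) (y : V d) :
    phi p S y = ∑' z : V d, ∑' w : V d, exw p S y z w := rfl

/-- connection by at most `r` edges, probability -/
noncomputable def kp (p : ℝ) (r : ℕ) (x : V d) : ℝ≥0∞ := Pr d {ω | RchL (opn p ω) r 0 x}

end Pool.Agent.PB.S3
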