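import Pool.Agent.PB.C.Defs

/-!
# PROJECT PB, module C-EXIT: first exit of a path from a finite set + BK

PLAN.
* `exit_walk`: induction on the walk `q`. `nil`: impossible (`o ∈ S`, `o ∉ S`). `cons h q'` (step
  `o → v`): if `v ∉ S` take `z = o`, `w = v`, `S1 = ∅`, `S2 = {e | e ∈ q'.edges}` (the trail
  condition gives `s(o,v) ∉ q'.edges`; `RchL` of a walk in its own edges: induction, see
  `rchL_of_walk` of PB/T/Tree.lean - copy the proof, do NOT import T). If `v ∈ S`: apply the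
  induction hypothesis to `q'`, `S1 := insert s(o,v) S1'` (`s(o,v) ∉ q'.edges`, and `s(z,w)`, `S1'`,
  `S2'` are in `q'.edges`).
* `exit_split`: `RchL O r o x` gives a path of length `≤ r` in `SimpleGraph.fromEdgeSet O`
  (induction on `r`, then `Walk.bypass`; see `walk_of_rchL` of PB/T/Tree.lean, copy), a path is a
  trail. `RchL.mono_len`, `RchL.mono`.
* `Pr_RchL_shift`: `Pr_act (trI w)` and equivariance of `RchL` under `act (trI w)`
  (`opn_act`/`mem_opn_act`, induction on `r`); compare `tau_shift` in PB/P/Act.lean.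
* `kp_exit`: the event `{RchL (opn p ω) r 0 x}` is contained in the union over `z ∈ S`, `w ∉ S`
  (countable) of the events `E_{z,w}` of `exit_split`; by `bk_gen` (PB/P/BKw.lean) with `k = 3`, no
  ghosts, events `Rch (O ∩ ins S) 0 z`, `s(z,w) ∈ O`, `RchL O r w x`:
  `Pr E_{z,w} ≤ pin p S 0 z * Pr {s(z,w) ∈ opn} * kp p r (x - w)`, and `Pr_edge_le`.
  `measure_iUnion_le`, or `measure_mono` + `measure_iUnion_le` twice.
-/

set_option autoImplicit false
open MeasureTheory Filter Topology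
open scoped ENNReal BigOperators

namespace Pool.Agent.PB.S3

private theorem rchL_walk {W : Type*} {G : SimpleGraph W} {x y : W} (p : G.Walk x y) :
    RchL {e | e ∈ p.edges} p.length x y := by
  induction p with
  | nil => rfl
  | cons h p ih =>
    rename_i a b c
    have h1 : RchL {e | e ∈ (SimpleGraph.Walk.cons h p).edges} 1 a b :=
      Or.inr ⟨a, rfl, by simp⟩
    have h2 : RchL {e | e ∈ (SimpleGraph.Walk.cons h p).edges} p.length b c :=
      ih.mono (fun e he => by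
        simp only [Set.mem_ofPred_eq] at he ⊢
        rw [SimpleGraph.Walk.edges_cons]
        exact List.mem_cons_of_mem _ he)
    have h3 := h1.trans h2
    rw [SimpleGraph.Walk.length_cons, Nat.add_comm]
    exact h3

private theorem walk_rchL {W : Type*} {O : Set (Sym2 W)} {r : ℕ} {x y : W} (h : RchL O r x y) :
    ∃ p : (SimpleGraph.fromEdgeSet O).Walk x y, p.IsPath ∧ p.length ≤ r := by
  classical
  have key : ∃ p : (SimpleGraph.fromEdgeSet O).Walk x y, p.length ≤ r := by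
    induction r generalizing y with
    | zero =>
      obtain rfl : x = y := h
      exact ⟨SimpleGraph.Walk.nil, le_refl _⟩
    | succ n ih =>
      rcases h with h | ⟨z, hz, hzy⟩
      · obtain ⟨p, hp⟩ := ih h
        exact ⟨p, by omega⟩
      · obtain ⟨p, hp⟩ := ih hz
        by_cases hne : z = y
        · subst hne
          exact ⟨p, by omega⟩
        · refine ⟨p.concat ((SimpleGraph.fromEdgeSet_adj O).2 ⟨hzy, hne⟩), ?_⟩
          rw [SimpleGraph.Walk.length_concat]
          omega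
  obtain ⟨p, hp⟩ := key
  exact ⟨p.bypass, p.bypass_isPath, (p.length_bypass_le_length).trans hp⟩

theorem exit_walk {W : Type*} {G : SimpleGraph W} {o x : W} (q : G.Walk o x) (hq : q.IsTrail)
    {S : Set W} (ho : o ∈ S) (hx : x ∉ S) :
    ∃ z w : W, z ∈ S ∧ w ∉ S ∧ s(z, w) ∈ q.edges ∧ ∃ S1 S2 : Set (Sym2 W),
      S1 ⊆ {e | e ∈ q.edges} ∧ S2 ⊆ {e | e ∈ q.edges} ∧ S1 ⊆ ins S ∧ Disjoint S1 S2 ∧
      s(z, w) ∉ S1 ∧ s(z, w) ∉ S2 ∧ Rch S1 o z ∧ RchL S2 q.length w x := by
  induction q with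
  | nil => exact absurd ho hx
  | cons h q' ih =>
    rename_i a v b
    obtain ⟨hq', hnot⟩ := (SimpleGraph.Walk.isTrail_cons h q').1 hq
    have hsub : {e | e ∈ q'.edges} ⊆ {e | e ∈ (SimpleGraph.Walk.cons h q').edges} := by
      intro e he
      simp only [Set.mem_ofPred_eq] at he ⊢
      rw [SimpleGraph.Walk.edges_cons]
      exact List.mem_cons_of_mem _ he
    have hself : s(a, v) ∈ {e | e ∈ (SimpleGraph.Walk.cons h q').edges} := by
      simp only [Set.mem_ofPred_eq]
      rw [SimpleGraph.Walk.edges_cons]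
      exact List.mem_cons_self
    by_cases hv : v ∈ S
    · obtain ⟨z, w, hz, hw, hzw, S1, S2, h1, h2, h3, h4, h5, h6, h7, h8⟩ := ih hq' hv hx
      refine ⟨z, w, hz, hw, hsub hzw, insert s(a, v) S1, S2,
        Set.insert_subset hself (h1.trans hsub), h2.trans hsub, ?_, ?_, ?_, h6, ?_, ?_⟩
      · refine Set.insert_subset ?_ h3
        intro t ht
        rcases Sym2.mem_iff.1 ht with rfl | rfl
        · exact ho
        · exact hv
      · rw [Set.disjoint_left]
        rintro e (rfl | he) he2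
        · exact hnot (h2 he2)
        · exact Set.disjoint_left.1 h4 he he2
      · rintro (he | he)
        · rw [he] at hzw
          exact hnot hzw
        · exact h5 he
      · exact Rch.head (Set.mem_insert _ _) (h7.mono (Set.subset_insert _ _))
      · exact Or.inl h8
    · refine ⟨a, v, ho, hv, hself, ∅, {e | e ∈ q'.edges}, Set.empty_subset _, hsub,
        Set.empty_subset _, Set.empty_disjoint _, Set.notMem_empty _, hnot, Rch.refl _ _, ?_⟩
      exact Or.inl (rchL_walk q')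

theorem exit_split {W : Type*} {O : Set (Sym2 W)} {r : ℕ} {o x : W} (h : RchL O r o x) {S : Set W}
    (ho : o ∈ S) (hx : x ∉ S) :
    ∃ z w : W, z ∈ S ∧ w ∉ S ∧ s(z, w) ∈ O ∧ ∃ S1 S2 : Set (Sym2 W),
      S1.Finite ∧ S2.Finite ∧ S1 ⊆ O ∩ ins S ∧ S2 ⊆ O ∧ Disjoint S1 S2 ∧
      s(z, w) ∉ S1 ∧ s(z, w) ∉ S2 ∧ Rch S1 o z ∧ RchL S2 r w x := by
  obtain ⟨p, hp, hl⟩ := walk_rchL h
  have hsub : {e | e ∈ p.edges} ⊆ O := by
    intro e he
    have := p.edges_subset_edgeSet he
    rw [SimpleGraph.edgeSet_fromEdgeSet] at this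
    exact this.1
  have hfin : {e | e ∈ p.edges}.Finite := p.edges.finite_toSet
  obtain ⟨z, w, hz, hw, hzw, S1, S2, h1, h2, h3, h4, h5, h6, h7, h8⟩ :=
    exit_walk p hp.isTrail ho hx
  exact ⟨z, w, hz, hw, hsub hzw, S1, S2, hfin.subset h1, hfin.subset h2,
    fun e he => ⟨hsub (h1 he), h3 he⟩, h2.trans hsub, h4, h5, h6, h7, h8.mono_len hl⟩

variable {d : ℕ}

private theorem RchL_equiv {W W' : Type*} {O : Set (Sym2 W)} {O' : Set (Sym2 W')} (f : W ≃ W')
    (h : ∀ a b, s(a, b) ∈ O ↔ s(f a, f b) ∈ O') (n : ℕ) (x y : W) :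
    RchL O n x y ↔ RchL O' n (f x) (f y) := by
  induction n generalizing y with
  | zero => exact f.injective.eq_iff.symm
  | succ n ih =>
    show (RchL O n x y ∨ ∃ z, RchL O n x z ∧ s(z, y) ∈ O) ↔
      (RchL O' n (f x) (f y) ∨ ∃ z, RchL O' n (f x) z ∧ s(z, f y) ∈ O')
    rw [ih]
    refine or_congr Iff.rfl ?_
    constructor
    · rintro ⟨z, hz, hzy⟩
      exact ⟨f z, (ih z).1 hz, (h z y).1 hzy⟩
    · rintro ⟨z', hz, hzy⟩
      obtain ⟨z, rfl⟩ := f.surjective z'
      exact ⟨z, (ih z).2 hz, (h z y).2 hzy⟩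

theorem Pr_RchL_shift (p : ℝ) (r : ℕ) (x y : V d) :
    Pr d {ω | RchL (opn p ω) r x y} = kp p r (y - x) := by
  unfold kp
  rw [← Pr_act (trI x) {ω | RchL (opn p ω) r 0 (y - x)}]
  congr 1
  ext ω
  simp only [Set.mem_ofPred_eq]
  rw [RchL_equiv (trI x) (fun a b => mem_opn_act (trI_aut x) p ω a b) r 0 (y - x)]
  simp [trI_apply]

private def fE (z w : V d) :
    Set (Sym2 (V d)) → Set (Sym2 (V d)) → (Bool → Set (V d)) → Prop :=
  fun O _ _ => s(z, w) ∈ O

private def fI (S : Set (V d)) (z : V d) :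
    Set (Sym2 (V d)) → Set (Sym2 (V d)) → (Bool → Set (V d)) → Prop :=
  fun O _ _ => Rch (O ∩ ins S) 0 z

private def fL (r : ℕ) (w x : V d) :
    Set (Sym2 (V d)) → Set (Sym2 (V d)) → (Bool → Set (V d)) → Prop :=
  fun O _ _ => RchL O r w x

private theorem exit_bk (p : ℝ) (S : Finset (V d)) (r : ℕ) (x z w : V d) {E : Set (Om d)}
    (hE : ∀ ω ∈ E, s(z, w) ∈ opn p ω ∧ ∃ S1 S2 : Set (Sym2 (V d)),
      S1.Finite ∧ S2.Finite ∧ S1 ⊆ opn p ω ∩ ins (S : Set (V d)) ∧ S2 ⊆ opn p ω ∧ Disjoint S1 S2 ∧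
      s(z, w) ∉ S1 ∧ s(z, w) ∉ S2 ∧ Rch S1 0 z ∧ RchL S2 r w x) :
    Pr d E ≤ J p (w - z) * pin p S 0 z * kp p r (x - w) := by
  have h1 := bk_gen (d := d) (k := 3) (fun _ => p) (fun _ => p) (fun _ _ => 0)
    (f := ![fI (S : Set (V d)) z, fE z w, fL r w x]) (fun j => by
      fin_cases j
      · intro _ _ _ _ _ _ h _ _ h1
        exact Rch.mono (Set.inter_subset_inter_left _ h) h1
      · intro _ _ _ _ _ _ h _ _ h1
        exact h h1
      · intro _ _ _ _ _ _ h _ _ h1
        exact RchL.mono h h1) (fun j => by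
      fin_cases j
      · exact ((opn_MES p).inter (MES.const _)).rch 0 z
      · exact (opn_MES p) s(z, w)
      · exact (opn_MES p).rchL r w x) (E := E) (by
      intro ω hω
      obtain ⟨hzw, S1, S2, h1, h2, h3, h4, h5, h6, h7, h8, h9⟩ := hE ω hω
      refine ⟨![S1, {s(z, w)}, S2], fun _ => ∅, ?_, fun _ => Set.finite_empty, ?_,
        fun i j _ => Set.disjoint_empty _, ?_⟩
      · intro j
        fin_cases j
        exacts [h1, Set.finite_singleton _, h2]
      · have d1 : Disjoint S1 {s(z, w)} := Set.disjoint_singleton_right.2 h6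
        have d2 : Disjoint S2 {s(z, w)} := Set.disjoint_singleton_right.2 h7
        intro i j hij
        fin_cases i <;> fin_cases j
        exacts [absurd rfl hij, d1, h5, d1.symm, absurd rfl hij, d2.symm, h5.symm, d2,
          absurd rfl hij]
      · intro j
        fin_cases j
        · show Rch ((opn p ω ∩ S1) ∩ ins (S : Set (V d))) 0 z
          have hs : S1 ⊆ (opn p ω ∩ S1) ∩ ins (S : Set (V d)) :=
            fun e he => ⟨⟨(h3 he).1, he⟩, (h3 he).2⟩
          exact h8.mono hs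
        · show s(z, w) ∈ opn p ω ∩ {s(z, w)}
          exact ⟨hzw, rfl⟩
        · show RchL (opn p ω ∩ S2) r w x
          have hs : S2 ⊆ opn p ω ∩ S2 := fun e he => ⟨h4 he, he⟩
          exact h9.mono hs)
  rw [Fin.prod_univ_three] at h1
  have e0 : Pr d (ev3 p p (fun _ => 0) (fI (S : Set (V d)) z)) = pin p S 0 z := rfl
  have e1 : Pr d (ev3 p p (fun _ => 0) (fE z w)) ≤ J p (w - z) := Pr_edge_le p z w
  have e2 : Pr d (ev3 p p (fun _ => 0) (fL r w x)) = kp p r (x - w) := Pr_RchL_shift p r w x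
  calc Pr d E ≤ Pr d (ev3 p p (fun _ => 0) (fI (S : Set (V d)) z)) *
        Pr d (ev3 p p (fun _ => 0) (fE z w)) * Pr d (ev3 p p (fun _ => 0) (fL r w x)) := h1
    _ ≤ pin p S 0 z * J p (w - z) * kp p r (x - w) := by
        rw [e0, e2]
        exact mul_le_mul' (mul_le_mul' le_rfl e1) le_rfl
    _ = _ := by rw [mul_comm (pin p S 0 z)]

theorem kp_exit (p : ℝ) {S : Finset (V d)} (h0 : (0 : V d) ∈ S) (r : ℕ) {x : V d} (hx : x ∉ S) :
    kp p r x ≤ ∑' z : V d, ∑' w : V d, exw p S 0 z w * kp p r (x - w) := by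
  classical
  set E : V d → V d → Set (Om d) := fun z w => {ω | (z ∈ S ∧ w ∉ S) ∧ s(z, w) ∈ opn p ω ∧
    ∃ S1 S2 : Set (Sym2 (V d)),
      S1.Finite ∧ S2.Finite ∧ S1 ⊆ opn p ω ∩ ins (S : Set (V d)) ∧ S2 ⊆ opn p ω ∧ Disjoint S1 S2 ∧
      s(z, w) ∉ S1 ∧ s(z, w) ∉ S2 ∧ Rch S1 0 z ∧ RchL S2 r w x} with hEdef
  have h1 : kp p r x ≤ Pr d (⋃ z, ⋃ w, E z w) := by
    unfold kp
    refine measure_mono fun ω hω => ?_
    obtain ⟨z, w, hz, hw, hzw, h⟩ := exit_split (S := (S : Set (V d))) hω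
      (Finset.mem_coe.2 h0) (fun hh => hx (Finset.mem_coe.1 hh))
    rw [Set.mem_iUnion]
    refine ⟨z, ?_⟩
    rw [Set.mem_iUnion]
    exact ⟨w, ⟨Finset.mem_coe.1 hz, fun hh => hw (Finset.mem_coe.2 hh)⟩, hzw, h⟩
  refine h1.trans ((measure_iUnion_le _).trans (ENNReal.tsum_le_tsum fun z => ?_))
  refine (measure_iUnion_le _).trans (ENNReal.tsum_le_tsum fun w => ?_)
  unfold exw
  by_cases hzw : z ∈ S ∧ w ∉ S
  · rw [if_pos hzw]
    exact exit_bk p S r x z w fun ω hω => hω.2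
  · have he : E z w = ∅ := by
      rw [hEdef]
      exact Set.eq_empty_of_forall_notMem fun ω hω => hzw hω.1
    rw [he, measure_empty]
    exact zero_le

end Pool.Agent.PB.S3
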