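import Pool.Agent.PB.C.Sharp
import Pool.Agent.PB.AF.Out
import Pool.Agent.PB.LE.Main

/-!
# PROJECT PB, `crit_of`: the output `Crit d` of Sections 3 and 4 for all large `d`
-/

set_option autoImplicit false
open MeasureTheory Filter Topology
open scoped ENNReal BigOperators

namespace Pool.Agent.PB.S3

/-- OUTPUT of Sections 3 and 4 -/
theorem crit_of : ∃ d0 : ℕ, ∀ d : ℕ, d0 ≤ d → Crit d := by
  obtain ⟨d0, h⟩ := AFB.lace_out 1200
  refine ⟨max d0 2, fun d hd => ?_⟩
  have hd2 : 2 ≤ d := (le_max_right _ _).trans hd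
  have hd1 : 1 ≤ d := by omega
  have h3 := sub3 hd1
  have hL : AFB.LaceExp 1200 d :=
    LE.laceExp (AFB.pc_le_one hd1) (fun p _ hp => AFB.theta_eq_zero hd1 hp)
  obtain ⟨hpc, -, h8, hsm⟩ := h d ((le_max_left _ _).trans hd) h3 hL
  exact
    { hd := hd2
      pc_pos := pc_pos hd1
      pc_lt := hpc
      theta_zero := fun p hp => AFB.theta_eq_zero hd1 hp
      chi_lt := h3.chi_lt
      chi_pc := chi_pc hd1 hpc
      phi_ge := fun S hS => phi_ge hd1 hpc S hS
      theta_ge := theta_ge hd1 hpc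
      B8 := h8
      small := hsm }

end Pool.Agent.PB.S3
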