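import Pool.Agent.PB.C.Exit

/-!
# PROJECT PB, module C-MOM: `φ_p(S) < 1` gives an exponential moment of the two point function

PLAN of `exp_mom`. Write `e_a x = ENNReal.ofReal (exp (a * l1 x))`; `e_a (x + y) ≤ e_a x * e_a y`
(`l1_add_le`: triangle inequality of `l1`) for `a ≥ 0`.
`R` with `l1 z + 1 ≤ R` for all `z ∈ S`. For `exw p S 0 z w ≠ 0`: `z ∈ S` and `l1 (w - z) = 1`
(else `J = 0`), so `l1 w ≤ R`. Since `phi p S 0 < 1` there is `a > 0` with
`b := e_a(R) * phi p S 0 < 1` (continuity of `exp` at `0`: e.g. `exp (aR) → 1` as `a → 0`).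
`Z r := ∑' x, e_a x * kp p r x` is finite: `kp p r x = 0` unless `l1 x ≤ r` (a path of `≤ r` lattice
edges: induction on `r`, `RchL (opn p ω) r 0 x → l1 x ≤ r`), and `{x | l1 x ≤ r}` is finite
(contained in `bxF d r`). By `kp_exit` for `x ∉ S` and `kp ≤ 1` for `x ∈ S`:
`Z r ≤ C + ∑' x, ∑' z, ∑' w, exw z w * e_a w * e_a (x - w) * kp p r (x - w) ≤ C + b * Z r`
with `C = ∑ x ∈ S, e_a x < ⊤` (swap the sums with `ENNReal.tsum_comm`, shift `x ↦ x + w`:
`Equiv.subRight`/`Equiv.addRight` `.tsum_eq`). So `Z r ≤ C / (1 - b)` (`ENNReal`: from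
`Z ≤ C + bZ`, `Z < ⊤`, `b < 1`; lemma `solve`). Finally `tau p x = ⨆ r, kp p r x` (monotone union,
`rch_iff_exists_RchL`, `Monotone.measure_iUnion`), and the sum is bounded by
`⨆ r, Z r` (`ENNReal.tsum_eq_iSup_sum` or `lintegral` monotone convergence; simplest:
`ENNReal.tsum_le_of_sum_le`-like: for every finite set `F` of `x`: `∑_{x ∈ F} e_a x * tau p x =
⨆ r ∑_{x∈F} e_a x * kp p r x ≤ C/(1-b)` by `ENNReal.finsetSum_iSup_of_monotone`).
* `chi_of_phi`: `1 ≤ e_a x`. * `mom_of_phi`: `n2 x ≤ (l1 x)^2 ≤ (2 / a^2) exp (a * l1 x)`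
  (`Real.pow_div_factorial_le_exp`/`quadratic_le_exp_of_nonneg`), `tauw` in PB/Defs.lean.
-/

set_option autoImplicit false
open MeasureTheory Filter Topology
open scoped ENNReal BigOperators

namespace Pool.Agent.PB.S3

variable {d : ℕ}

theorem solve {Z C b : ℝ≥0∞} (h : Z ≤ C + b * Z) (hZ : Z ≠ ⊤) (hb : b < 1) : Z ≤ C / (1 - b) := by
  have h1 : (1 : ℝ≥0∞) - b ≠ 0 := (tsub_pos_of_lt hb).ne'
  have h2 : (1 : ℝ≥0∞) - b ≠ ⊤ := ne_top_of_le_ne_top ENNReal.one_ne_top tsub_le_self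
  rw [ENNReal.le_div_iff_mul_le (Or.inl h1) (Or.inl h2), ENNReal.mul_sub (fun _ _ => hZ),
    mul_one, tsub_le_iff_right, mul_comm Z b]
  exact h

theorem l1_add_le (x y : V d) : l1 (x + y) ≤ l1 x + l1 y := by
  unfold l1
  rw [← Finset.sum_add_distrib]
  exact Finset.sum_le_sum fun i _ => abs_add_le _ _

private theorem l1_nonneg' (x : V d) : 0 ≤ l1 x := Finset.sum_nonneg fun i _ => abs_nonneg _

private theorem l1_of_RchL {O : Set (Sym2 (V d))} (hO : O ⊆ (lat d).edgeSet) :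
    ∀ (r : ℕ) (x : V d), RchL O r 0 x → l1 x ≤ r := by
  intro r
  induction r with
  | zero =>
    intro x h
    have h' : (0 : V d) = x := h
    subst h'
    simp [l1]
  | succ r ih =>
    intro x h
    rcases h with h | ⟨z, hz, he⟩
    · have := ih x h
      push_cast
      linarith
    · have h1 := ih z hz
      have h2 : l1 (x - z) = 1 := (SimpleGraph.mem_edgeSet _).1 (hO he)
      have h3 := l1_add_le z (x - z)
      rw [add_sub_cancel] at h3
      push_cast
      linarith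

theorem kp_zero {p : ℝ} {r : ℕ} {x : V d} (h : (r : ℤ) < l1 x) : kp p r x = 0 := by
  unfold kp
  have : {ω : Om d | RchL (opn p ω) r 0 x} = ∅ := by
    ext ω
    simp only [Set.mem_setOf_eq, Set.mem_empty_iff_false, iff_false]
    intro hc
    exact absurd (l1_of_RchL (fun e he => he.1) r x hc) (not_le.2 h)
  rw [this, measure_empty]

theorem kp_le_tau (p : ℝ) (r : ℕ) (x : V d) : kp p r x ≤ tau p x :=
  measure_mono fun _ h => RchL.rch h

theorem tau_iSup (p : ℝ) (x : V d) : tau p x = ⨆ r : ℕ, kp p r x := by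
  unfold tau kp
  have h : {ω : Om d | Rch (opn p ω) 0 x} = ⋃ r : ℕ, {ω : Om d | RchL (opn p ω) r 0 x} := by
    ext ω
    simp only [Set.mem_setOf_eq, Set.mem_iUnion]
    exact rch_iff_exists_RchL
  rw [h]
  refine Monotone.measure_iUnion ?_
  intro m n hmn ω hω
  exact RchL.mono_len hmn hω

/-- the exponential weight -/
private noncomputable def ew (a : ℝ) (x : V d) : ℝ≥0∞ :=
  ENNReal.ofReal (Real.exp (a * (l1 x : ℝ)))

private theorem ew_add_le {a : ℝ} (ha : 0 ≤ a) (x y : V d) : ew a (x + y) ≤ ew a x * ew a y := by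
  unfold ew
  rw [← ENNReal.ofReal_mul (Real.exp_pos _).le, ← Real.exp_add]
  refine ENNReal.ofReal_le_ofReal (Real.exp_le_exp.2 ?_)
  have h : (l1 (x + y) : ℝ) ≤ (l1 x : ℝ) + (l1 y : ℝ) := by exact_mod_cast l1_add_le x y
  nlinarith

private theorem one_le_ew {a : ℝ} (ha : 0 ≤ a) (x : V d) : 1 ≤ ew a x := by
  unfold ew
  rw [ENNReal.one_le_ofReal]
  refine Real.one_le_exp (mul_nonneg ha ?_)
  exact_mod_cast l1_nonneg' x

private theorem ew_ne_top (a : ℝ) (x : V d) : ew a x ≠ ⊤ := ENNReal.ofReal_ne_top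

private theorem mem_bxF_of_l1 {r : ℕ} {x : V d} (h : l1 x ≤ r) : x ∈ bxF d r := by
  rw [mem_bxF]
  intro i
  rw [Pi.zero_apply, sub_zero]
  refine le_trans ?_ h
  unfold l1
  exact Finset.single_le_sum (f := fun i => |x i|) (fun _ _ => abs_nonneg _) (Finset.mem_univ i)

private theorem Z_ne_top (a p : ℝ) (r : ℕ) : ∑' x : V d, ew a x * kp p r x ≠ ⊤ := by
  have h : ∑' x : V d, ew a x * kp p r x = ∑ x ∈ bxF d r, ew a x * kp p r x := by
    refine tsum_eq_sum fun x hx => ?_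
    have : (r : ℤ) < l1 x := by
      by_contra hcon
      exact hx (mem_bxF_of_l1 (not_lt.1 hcon))
    rw [kp_zero this, mul_zero]
  rw [h]
  refine (ENNReal.sum_lt_top.2 fun x _ => ?_).ne
  exact ENNReal.mul_lt_top (ew_ne_top a x).lt_top
    ((prob_le_one (μ := Pr d)).trans_lt ENNReal.one_lt_top)

open Classical in
private theorem Z_step {a p : ℝ} (ha : 0 ≤ a) {S : Finset (V d)} (h0 : (0 : V d) ∈ S) (R : ℕ)
    (hR : ∀ z ∈ S, l1 z + 1 ≤ R) (r : ℕ) :
    ∑' x : V d, ew a x * kp p r x ≤ ∑ x ∈ S, ew a x +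
      ENNReal.ofReal (Real.exp (a * R)) * phi p S 0 * ∑' x : V d, ew a x * kp p r x := by
  have hw : ∀ z w : V d, exw p S 0 z w * ew a w ≤
      exw p S 0 z w * ENNReal.ofReal (Real.exp (a * R)) := by
    intro z w
    by_cases h : exw p S 0 z w = 0
    · rw [h, zero_mul, zero_mul]
    refine mul_le_mul' le_rfl ?_
    unfold ew
    refine ENNReal.ofReal_le_ofReal (Real.exp_le_exp.2 (mul_le_mul_of_nonneg_left ?_ ha))
    have h1 : z ∈ S ∧ w ∉ S := by
      by_contra hcon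
      apply h
      unfold exw
      rw [if_neg hcon]
    have h2 : l1 (w - z) = 1 := by
      by_contra hcon
      apply h
      unfold exw
      rw [if_pos h1, J_zero_of_ne p hcon, zero_mul]
    have h3 := l1_add_le z (w - z)
    rw [add_sub_cancel] at h3
    have h4 := hR z h1.1
    have h5 : l1 w ≤ R := by linarith
    exact_mod_cast h5
  have hx : ∀ x : V d, ew a x * kp p r x ≤ (if x ∈ S then ew a x else 0) +
      ∑' z : V d, ∑' w : V d, exw p S 0 z w * ENNReal.ofReal (Real.exp (a * R)) *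
        (ew a (x - w) * kp p r (x - w)) := by
    intro x
    by_cases hxS : x ∈ S
    · rw [if_pos hxS]
      refine le_trans ?_ le_self_add
      refine mul_le_of_le_one_right' ?_
      exact prob_le_one
    · rw [if_neg hxS, zero_add]
      refine (mul_le_mul' le_rfl (kp_exit p h0 r hxS)).trans ?_
      rw [← ENNReal.tsum_mul_left]
      refine ENNReal.tsum_le_tsum fun z => ?_
      rw [← ENNReal.tsum_mul_left]
      refine ENNReal.tsum_le_tsum fun w => ?_
      have h1 : ew a x ≤ ew a w * ew a (x - w) := by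
        have := ew_add_le ha w (x - w)
        rwa [add_sub_cancel] at this
      calc ew a x * (exw p S 0 z w * kp p r (x - w))
          ≤ ew a w * ew a (x - w) * (exw p S 0 z w * kp p r (x - w)) := mul_le_mul' h1 le_rfl
        _ = exw p S 0 z w * ew a w * (ew a (x - w) * kp p r (x - w)) := by ring
        _ ≤ _ := mul_le_mul' (hw z w) le_rfl
  calc ∑' x : V d, ew a x * kp p r x
      ≤ ∑' x : V d, ((if x ∈ S then ew a x else 0) +
        ∑' z : V d, ∑' w : V d, exw p S 0 z w * ENNReal.ofReal (Real.exp (a * R)) *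
          (ew a (x - w) * kp p r (x - w))) := ENNReal.tsum_le_tsum hx
    _ = ∑' x : V d, (if x ∈ S then ew a x else 0) + ∑' x : V d,
        ∑' z : V d, ∑' w : V d, exw p S 0 z w * ENNReal.ofReal (Real.exp (a * R)) *
          (ew a (x - w) * kp p r (x - w)) := ENNReal.tsum_add
    _ = _ := by
        congr 1
        · rw [tsum_eq_sum (s := S) (fun x hx => if_neg hx)]
          exact Finset.sum_congr rfl fun x hx => if_pos hx
        · rw [ENNReal.tsum_comm, phi_eq, mul_assoc, ← ENNReal.tsum_mul_right,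
            ← ENNReal.tsum_mul_left]
          refine tsum_congr fun z => ?_
          rw [ENNReal.tsum_comm, ← ENNReal.tsum_mul_right, ← ENNReal.tsum_mul_left]
          refine tsum_congr fun w => ?_
          have e : ∑' x : V d, ew a (x - w) * kp p r (x - w) =
              ∑' x : V d, ew a x * kp p r x :=
            (Equiv.subRight w).tsum_eq (fun x : V d => ew a x * kp p r x)
          rw [ENNReal.tsum_mul_left, e]
          ring

/-- the exponential moment -/
theorem exp_mom {p : ℝ} {S : Finset (V d)} (h0 : (0 : V d) ∈ S) (h : phi p S 0 < 1) :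
    ∃ a : ℝ, 0 < a ∧ ∑' x : V d, ENNReal.ofReal (Real.exp (a * (l1 x : ℝ))) * tau p x < ⊤ := by
  obtain ⟨R, hR⟩ : ∃ R : ℕ, ∀ z ∈ S, l1 z + 1 ≤ R := by
    refine ⟨(∑ z ∈ S, (l1 z).toNat) + 1, fun z hz => ?_⟩
    have h1 : (l1 z).toNat ≤ ∑ z ∈ S, (l1 z).toNat :=
      Finset.single_le_sum (f := fun z : V d => (l1 z).toNat) (fun _ _ => Nat.zero_le _) hz
    have h2 : l1 z ≤ ((l1 z).toNat : ℤ) := Int.self_le_toNat _
    have h3 : (((l1 z).toNat : ℕ) : ℤ) ≤ ((∑ z ∈ S, (l1 z).toNat : ℕ) : ℤ) := by exact_mod_cast h1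
    push_cast at h3 ⊢
    linarith
  have hphi : phi p S 0 ≠ ⊤ := (h.trans ENNReal.one_lt_top).ne
  have hphi1 : (phi p S 0).toReal < 1 := by
    rw [← ENNReal.toReal_one]
    exact (ENNReal.toReal_lt_toReal hphi ENNReal.one_ne_top).2 h
  obtain ⟨a, ha0, ha⟩ : ∃ a : ℝ, 0 < a ∧ Real.exp (a * R) * (phi p S 0).toReal < 1 := by
    have hc : Tendsto (fun a : ℝ => Real.exp (a * R) * (phi p S 0).toReal) (𝓝 0)
        (𝓝 (Real.exp (0 * R) * (phi p S 0).toReal)) := by
      have : Continuous fun a : ℝ => Real.exp (a * R) * (phi p S 0).toReal := by fun_prop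
      exact this.tendsto 0
    rw [zero_mul, Real.exp_zero, one_mul] at hc
    have hev : ∀ᶠ a : ℝ in 𝓝[>] 0, Real.exp (a * R) * (phi p S 0).toReal < 1 :=
      (hc.mono_left nhdsWithin_le_nhds).eventually (gt_mem_nhds hphi1)
    obtain ⟨a, h1, h2⟩ := (hev.and self_mem_nhdsWithin).exists
    exact ⟨a, h2, h1⟩
  have hb : ENNReal.ofReal (Real.exp (a * R)) * phi p S 0 < 1 := by
    rw [← ENNReal.ofReal_toReal hphi, ← ENNReal.ofReal_mul (Real.exp_pos _).le,
      ← ENNReal.ofReal_one]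
    exact (ENNReal.ofReal_lt_ofReal_iff one_pos).2 ha
  have hZ : ∀ r : ℕ, ∑' x : V d, ew a x * kp p r x ≤
      (∑ x ∈ S, ew a x) / (1 - ENNReal.ofReal (Real.exp (a * R)) * phi p S 0) := fun r =>
    solve (Z_step ha0.le h0 R hR r) (Z_ne_top a p r) hb
  refine ⟨a, ha0, ?_⟩
  have hfin : (∑ x ∈ S, ew a x) / (1 - ENNReal.ofReal (Real.exp (a * R)) * phi p S 0) < ⊤ := by
    refine ENNReal.div_lt_top ?_ (tsub_pos_of_lt hb).ne'
    exact (ENNReal.sum_lt_top.2 fun x _ => (ew_ne_top a x).lt_top).ne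
  refine lt_of_le_of_lt ?_ hfin
  rw [ENNReal.tsum_eq_iSup_sum]
  refine iSup_le fun F => ?_
  have h1 : ∑ x ∈ F, ENNReal.ofReal (Real.exp (a * (l1 x : ℝ))) * tau p x =
      ⨆ r : ℕ, ∑ x ∈ F, ew a x * kp p r x := by
    rw [← ENNReal.finsetSum_iSup_of_monotone]
    · refine Finset.sum_congr rfl fun x _ => ?_
      rw [tau_iSup, ENNReal.mul_iSup]
      rfl
    · intro x m n hmn
      exact mul_le_mul' le_rfl (measure_mono fun ω hω => RchL.mono_len hmn hω)
  rw [h1]
  exact iSup_le fun r => (ENNReal.sum_le_tsum F).trans (hZ r)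

theorem chi_of_phi {p : ℝ} {S : Finset (V d)} (h0 : (0 : V d) ∈ S) (h : phi p S 0 < 1) :
    chi d p < ⊤ := by
  obtain ⟨a, ha, hlt⟩ := exp_mom h0 h
  refine lt_of_le_of_lt ?_ hlt
  unfold chi
  refine ENNReal.tsum_le_tsum fun x => ?_
  exact le_mul_of_one_le_left zero_le (one_le_ew ha.le x)

private theorem n2_le (x : V d) : (n2 x : ℝ) ≤ (l1 x : ℝ) ^ 2 := by
  have h1 : ∀ i, ((x i).natAbs : ℤ) ^ 2 = |x i| * |x i| := by
    intro i
    rw [Int.natCast_natAbs, sq]
  have h : ((n2 x : ℕ) : ℤ) ≤ l1 x ^ 2 := by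
    unfold n2 l1
    push_cast
    rw [sq, Finset.sum_mul]
    refine Finset.sum_le_sum fun i _ => ?_
    rw [sq]
    refine mul_le_mul_of_nonneg_left ?_ (abs_nonneg _)
    exact Finset.single_le_sum (f := fun i => |x i|) (fun _ _ => abs_nonneg _) (Finset.mem_univ i)
  exact_mod_cast h

theorem mom_of_phi {p : ℝ} {S : Finset (V d)} (h0 : (0 : V d) ∈ S) (h : phi p S 0 < 1) :
    ∑' x : V d, tauw p x < ⊤ := by
  obtain ⟨a, ha, hlt⟩ := exp_mom h0 h
  have hle : ∑' x : V d, tauw p x ≤ ENNReal.ofReal (2 / a ^ 2) *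
      ∑' x : V d, ENNReal.ofReal (Real.exp (a * (l1 x : ℝ))) * tau p x := by
    rw [← ENNReal.tsum_mul_left]
    refine ENNReal.tsum_le_tsum fun x => ?_
    unfold tauw
    rw [← mul_assoc]
    refine mul_le_mul' ?_ le_rfl
    rw [← ENNReal.ofReal_mul (by positivity), ← ENNReal.ofReal_natCast]
    refine ENNReal.ofReal_le_ofReal ((n2_le x).trans ?_)
    have hl : (0 : ℝ) ≤ (l1 x : ℝ) := by exact_mod_cast l1_nonneg' x
    have h2 := Real.quadratic_le_exp_of_nonneg (mul_nonneg ha.le hl)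
    have h3 : (a * (l1 x : ℝ)) ^ 2 / 2 ≤ Real.exp (a * (l1 x : ℝ)) := by
      have : 0 ≤ a * (l1 x : ℝ) := mul_nonneg ha.le hl
      linarith
    rw [div_mul_eq_mul_div, le_div_iff₀ (by positivity)]
    nlinarith
  exact lt_of_le_of_lt hle (ENNReal.mul_lt_top ENNReal.ofReal_lt_top hlt)

end Pool.Agent.PB.S3
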