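import Pool.Agent.PB.C.SU

/-!
# PROJECT PB, module C-RUSSO: the Russo inequality (3b)

Let `L = tE (bxF d n)`, `A T = {ω | RU U n y T}` (univ or empty: it does not depend on `ω`). By
`RU_inter` and `coe_opL`: `{RU U n y (opn p ω)} = {ω | ω ∈ A (opL L p ω)}`.
`russo` (PB/Russo.lean) gives the derivative
`D = ∑ e ∈ L, (Pr {RU (insert e (opL (L.erase e) p ω))} - Pr {RU (opL (L.erase e) p ω)})`
and by monotonicity (`RU_mono`) each term is the probability of
`Piv e = {RU (insert e (opL (L.erase e) p ω)) ∧ ¬ RU (opL (L.erase e) p ω)}`, which does not depend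
on the label of `e`; hence (`Pr_inter_indep`, `Pr_edge_not`)
`Pr (Piv e ∩ {e ∉ opn p ω}) = (1 - p) * Pr (Piv e)`.
-/

set_option autoImplicit false
open MeasureTheory Filter Topology
open scoped ENNReal BigOperators

namespace Pool.Agent.PB.S3

variable {d : ℕ}

/-- independence of `{SU = S}` and `{Rch (O ∩ ins S) y z}` -/
theorem SU_indep (U : Set (V d)) (n : ℕ) (p : ℝ) (S : Finset (V d)) (y z : V d) :
    Pr d ({ω | SU U n (opn p ω) = (S : Set (V d))} ∩
      {ω | Rch (opn p ω ∩ ins (S : Set (V d))) y z}) =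
      Pr d {ω | SU U n (opn p ω) = (S : Set (V d))} * pin p S y z := by
  refine Pr_inter_indep (S := Sum.inl '' (ins (S : Set (V d)))ᶜ)
    (T := Sum.inl '' (ins (S : Set (V d)))) ?_ ?_ ?_ ?_ ?_
  · rw [Set.disjoint_image_iff Sum.inl_injective]
    exact disjoint_compl_left
  · exact (SU_MVS (opn_MES p) U n).eq_set _
  · exact ((opn_MES p).inter (MES.const _)).rch y z
  · intro ω ω' h
    have h1 := dep_opn (d := d) p (ins (S : Set (V d)))ᶜ
      (S := Sum.inl '' (ins (S : Set (V d)))ᶜ) (fun e he => ⟨e, he, rfl⟩) h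
    simp only at h1
    have h2 : opn p ω \ ins (S : Set (V d)) = opn p ω' \ ins (S : Set (V d)) := h1
    exact propext ⟨fun h => SU_local h2 h, fun h => SU_local h2.symm h⟩
  · have h1 := dep_opn (d := d) p (ins (S : Set (V d)))
      (S := Sum.inl '' (ins (S : Set (V d)))) (fun e he => ⟨e, he, rfl⟩)
    exact dep_comp h1 (fun O => Rch O y z)

theorem dep_opL (M : Finset (Sym2 (V d))) (p : ℝ) :
    DependsOn (fun ω : Om d => opL M p ω) (Sum.inl '' (M : Set (Sym2 (V d))) : Set (Ix d)) := by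
  intro ω ω' h
  ext e
  rw [mem_opL, mem_opL]
  constructor
  · rintro ⟨h1, h2⟩
    refine ⟨h1, ?_⟩
    rw [← h (Sum.inl e) ⟨e, h1, rfl⟩]; exact h2
  · rintro ⟨h1, h2⟩
    refine ⟨h1, ?_⟩
    rw [h (Sum.inl e) ⟨e, h1, rfl⟩]; exact h2

/-- the pivotal event -/
def Pev (U : Set (V d)) (n : ℕ) (y : V d) (L : Finset (Sym2 (V d))) (p : ℝ) (e : Sym2 (V d)) :
    Set (Om d) :=
  {ω | RU U n y ((insert e (opL (L.erase e) p ω) : Finset (Sym2 (V d))) : Set (Sym2 (V d))) ∧
    ¬ RU U n y ((opL (L.erase e) p ω : Finset (Sym2 (V d))) : Set (Sym2 (V d)))}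

theorem meas_opL_ev (M : Finset (Sym2 (V d))) (p : ℝ) (f : Finset (Sym2 (V d)) → Prop) :
    MeasurableSet {ω : Om d | f (opL M p ω)} :=
  measurableSet_opL_event M p (A := fun T => {_ω | f T}) (fun _ _ => MeasurableSet.const _)

theorem meas_Pev (U : Set (V d)) (n : ℕ) (y : V d) (L : Finset (Sym2 (V d))) (p : ℝ)
    (e : Sym2 (V d)) : MeasurableSet (Pev U n y L p e) :=
  meas_opL_ev (L.erase e) p (fun T => RU U n y ((insert e T : Finset (Sym2 (V d))) :
    Set (Sym2 (V d))) ∧ ¬ RU U n y (T : Set (Sym2 (V d))))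

theorem Pr_Pev_closed (U : Set (V d)) (n : ℕ) (y : V d) (L : Finset (Sym2 (V d))) {p : ℝ}
    (h0 : 0 ≤ p) (h1 : p ≤ 1) {e : Sym2 (V d)} (he : e ∈ (lat d).edgeSet) :
    Pr d (Pev U n y L p e ∩ {ω | e ∉ opn p ω}) = Pr d (Pev U n y L p e) * ENNReal.ofReal (1 - p) := by
  have h2 : Pr d {ω : Om d | e ∉ opn p ω} = ENNReal.ofReal (1 - p) := by
    rw [Pr_edge_not p he, min_eq_left h1, ENNReal.ofReal_sub _ h0, ENNReal.ofReal_one]
  rw [← h2]
  refine Pr_inter_indep (S := Sum.inl '' ((L.erase e : Finset (Sym2 (V d))) : Set (Sym2 (V d))))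
    (T := {Sum.inl e}) ?_ (meas_Pev U n y L p e) ((opn_MES p) e).compl ?_ ?_
  · rw [Set.disjoint_left]
    rintro i ⟨f, hf, rfl⟩ h
    have : f = e := Sum.inl_injective h
    subst this
    simp at hf
  · exact dep_comp (dep_opL (L.erase e) p) (fun T => RU U n y ((insert e T : Finset (Sym2 (V d))) :
      Set (Sym2 (V d))) ∧ ¬ RU U n y (T : Set (Sym2 (V d))))
  · exact dep_comp (dep_mem_opn p e) (fun h => ¬ h)

/-- counting boundary edges: an injection from directed to undirected edges -/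
theorem count_edges (Z : Set (V d)) (F : Sym2 (V d) → ℝ≥0∞) :
    ∑' z : V d, ∑' w : V d, Set.indicator {q : V d × V d | q.1 ∈ Z ∧ q.2 ∉ Z}
      (fun q => F s(q.1, q.2)) (z, w) ≤ ∑' e, F e := by
  rw [← ENNReal.tsum_prod (f := fun z w => Set.indicator {q : V d × V d | q.1 ∈ Z ∧ q.2 ∉ Z}
      (fun q => F s(q.1, q.2)) (z, w))]
  rw [← tsum_subtype {q : V d × V d | q.1 ∈ Z ∧ q.2 ∉ Z} (fun q => F s(q.1, q.2))]
  refine ENNReal.tsum_comp_le_tsum_of_injective
    (f := fun q : {q : V d × V d | q.1 ∈ Z ∧ q.2 ∉ Z} => s(q.1.1, q.1.2)) ?_ F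
  rintro ⟨⟨a, b⟩, h1, h2⟩ ⟨⟨a', b'⟩, h1', h2'⟩ h
  simp only at h
  rcases Sym2.eq_iff.1 h with ⟨rfl, rfl⟩ | ⟨rfl, rfl⟩
  · rfl
  · exact absurd h1 h2'

theorem russo_ineq (U : Set (V d)) (n : ℕ) (y : V d) {p : ℝ} (h0 : 0 < p) (h1 : p < 1) :
    ∃ D : ℝ, HasDerivAt (fun q : ℝ => (thU q U n y).toReal) D p ∧
      ∑' S : Finset (V d), Pr d {ω | y ∈ SU U n (opn p ω) ∧ SU U n (opn p ω) = (S : Set (V d))} *
        phU p U S y ≤ ENNReal.ofReal (p * (1 - p) * D) := by
  classical
  set L : Finset (Sym2 (V d)) := tE (bxF d n) with hLdef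
  have hL : ∀ e ∈ L, e ∈ (lat d).edgeSet := fun e he => (mem_tE.1 he).1
  let A : Finset (Sym2 (V d)) → Set (Om d) := fun T => {_ω | RU U n y (T : Set (Sym2 (V d)))}
  have mA : ∀ T ⊆ L, MeasurableSet (A T) := fun T _ => MeasurableSet.const _
  have dA : ∀ T ⊆ L, DependsOn (fun ω => ω ∈ A T)
      ((Sum.inl '' (L : Set (Sym2 (V d))) : Set (Ix d))ᶜ) := fun T _ ω ω' _ => rfl
  have hr := russo L mA dA h0 h1
  have hth : (fun q : ℝ => (thU q U n y).toReal) =
      fun q => (Pr d {ω : Om d | ω ∈ A (opL L q ω)}).toReal := by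
    funext q
    unfold thU
    congr 2
    ext ω
    show RU U n y (opn q ω) ↔ RU U n y ((opL L q ω : Finset (Sym2 (V d))) : Set (Sym2 (V d)))
    rw [coe_opL hL]
    exact RU_inter (fun e he => he.1)
  rw [hth]
  refine ⟨_, hr, ?_⟩
  -- the derivative
  have hD : ∀ e ∈ L, ENNReal.ofReal
      ((Pr d {ω : Om d | ω ∈ A (insert e (opL (L.erase e) p ω))}).toReal -
        (Pr d {ω : Om d | ω ∈ A (opL (L.erase e) p ω)}).toReal) = Pr d (Pev U n y L p e) := by
    intro e _
    have hsub : {ω : Om d | ω ∈ A (opL (L.erase e) p ω)} ⊆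
        {ω : Om d | ω ∈ A (insert e (opL (L.erase e) p ω))} := by
      intro ω hω
      refine RU_mono ?_ hω
      exact_mod_cast Finset.subset_insert _ _
    have hm : MeasurableSet {ω : Om d | ω ∈ A (opL (L.erase e) p ω)} :=
      meas_opL_ev (L.erase e) p (fun T => RU U n y (T : Set (Sym2 (V d))))
    have h2 : Pev U n y L p e = {ω : Om d | ω ∈ A (insert e (opL (L.erase e) p ω))} \
        {ω : Om d | ω ∈ A (opL (L.erase e) p ω)} := rfl
    rw [h2, measure_sdiff hsub hm.nullMeasurableSet (measure_ne_top _ _),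
      ENNReal.ofReal_sub _ ENNReal.toReal_nonneg, ENNReal.ofReal_toReal (measure_ne_top _ _),
      ENNReal.ofReal_toReal (measure_ne_top _ _)]
  have hDn : ∀ e ∈ L, 0 ≤ ((Pr d {ω : Om d | ω ∈ A (insert e (opL (L.erase e) p ω))}).toReal -
        (Pr d {ω : Om d | ω ∈ A (opL (L.erase e) p ω)}).toReal) := by
    intro e _
    rw [sub_nonneg]
    refine ENNReal.toReal_mono (measure_ne_top _ _) (measure_mono fun ω hω => ?_)
    refine RU_mono ?_ hω
    exact_mod_cast Finset.subset_insert _ _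
  have hRHS : ENNReal.ofReal (p * (1 - p) * ∑ e ∈ L,
      ((Pr d {ω : Om d | ω ∈ A (insert e (opL (L.erase e) p ω))}).toReal -
        (Pr d {ω : Om d | ω ∈ A (opL (L.erase e) p ω)}).toReal)) =
      ENNReal.ofReal p * ∑ e ∈ L, Pr d (Pev U n y L p e ∩ {ω | e ∉ opn p ω}) := by
    rw [mul_assoc, ENNReal.ofReal_mul h0.le, ENNReal.ofReal_mul (by linarith),
      ENNReal.ofReal_sum_of_nonneg hDn, Finset.mul_sum]
    congr 1
    refine Finset.sum_congr rfl fun e he => ?_
    rw [hD e he, Pr_Pev_closed U n y L h0.le h1.le (hL e he), mul_comm]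
  rw [hRHS]
  -- the left side
  let E : V d → V d → Finset (V d) → Set (Om d) := fun z w S =>
    {ω | SU U n (opn p ω) = (S : Set (V d))} ∩ {ω | Rch (opn p ω ∩ ins (S : Set (V d))) y z}
  have hE : ∀ z w S, MeasurableSet (E z w S) := fun z w S =>
    ((SU_MVS (opn_MES p) U n).eq_set _).inter (((opn_MES p).inter (MES.const _)).rch y z)
  have step1 : ∑' S : Finset (V d), Pr d {ω | y ∈ SU U n (opn p ω) ∧
      SU U n (opn p ω) = (S : Set (V d))} * phU p U S y ≤
      ∑' z : V d, ∑' w : V d, ∑' S : Finset (V d),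
        if y ∈ S ∧ z ∈ S ∧ w ∉ S ∧ w ∉ U then J p (w - z) * Pr d (E z w S) else 0 := by
    have h2 : ∀ S : Finset (V d), Pr d {ω | y ∈ SU U n (opn p ω) ∧
        SU U n (opn p ω) = (S : Set (V d))} * phU p U S y = ∑' z : V d, ∑' w : V d,
        if y ∈ S ∧ z ∈ S ∧ w ∉ S ∧ w ∉ U then J p (w - z) * Pr d (E z w S) else 0 := by
      intro S
      by_cases hy : y ∈ S
      · have h3 : {ω : Om d | y ∈ SU U n (opn p ω) ∧ SU U n (opn p ω) = (S : Set (V d))} =
            {ω | SU U n (opn p ω) = (S : Set (V d))} := by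
          ext ω
          simp only [Set.mem_ofPred_eq, and_iff_right_iff_imp]
          intro h; rw [h]; exact hy
        rw [h3]
        unfold phU
        rw [← ENNReal.tsum_mul_left]
        refine tsum_congr fun z => ?_
        rw [← ENNReal.tsum_mul_left]
        refine tsum_congr fun w => ?_
        by_cases hc : z ∈ S ∧ w ∉ S ∧ w ∉ U
        · rw [if_pos hc, if_pos ⟨hy, hc⟩]
          have := SU_indep U n p S y z
          show _ = J p (w - z) * Pr d ({ω | SU U n (opn p ω) = (S : Set (V d))} ∩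
            {ω | Rch (opn p ω ∩ ins (S : Set (V d))) y z})
          rw [this]
          unfold pin
          ring
        · rw [if_neg hc, if_neg (fun h => hc h.2), mul_zero]
      · have h3 : {ω : Om d | y ∈ SU U n (opn p ω) ∧ SU U n (opn p ω) = (S : Set (V d))} = ∅ := by
          ext ω
          simp only [Set.mem_ofPred_eq, Set.mem_empty_iff_false, iff_false, not_and]
          intro h h'; rw [h'] at h; exact hy h
        rw [h3, measure_empty, zero_mul]
        symm
        simp [hy]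
    rw [tsum_congr h2]
    rw [ENNReal.tsum_comm]
    refine le_of_eq (tsum_congr fun z => ?_)
    rw [ENNReal.tsum_comm]
  refine step1.trans ?_
  -- pass to events
  let E' : V d → V d → Set (Om d) := fun z w => {ω | z ∈ SU U n (opn p ω) ∧ w ∉ SU U n (opn p ω) ∧
    s(z, w) ∈ L ∧ ω ∈ Pev U n y L p s(z, w) ∩ {ω | s(z, w) ∉ opn p ω}}
  have hE' : ∀ z w, MeasurableSet (E' z w) := by
    intro z w
    have h2 : E' z w = {ω | z ∈ SU U n (opn p ω)} ∩ ({ω | w ∈ SU U n (opn p ω)}ᶜ ∩
      ({_ω | s(z, w) ∈ L} ∩ (Pev U n y L p s(z, w) ∩ {ω | s(z, w) ∈ opn p ω}ᶜ))) := rfl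
    rw [h2]
    exact (SU_MVS (opn_MES p) U n z).inter ((SU_MVS (opn_MES p) U n w).compl.inter
      ((MeasurableSet.const _).inter ((meas_Pev U n y L p _).inter (opn_MES p _).compl)))
  have step2 : ∀ z w : V d, (∑' S : Finset (V d),
        if y ∈ S ∧ z ∈ S ∧ w ∉ S ∧ w ∉ U then J p (w - z) * Pr d (E z w S) else 0) ≤
        ENNReal.ofReal p * Pr d (E' z w) := by
    intro z w
    by_cases hzw : l1 (w - z) = 1
    · rw [J_of_eq p hzw]
      have h3 : (∑' S : Finset (V d), if y ∈ S ∧ z ∈ S ∧ w ∉ S ∧ w ∉ U then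
          ENNReal.ofReal p * Pr d (E z w S) else 0) = ENNReal.ofReal p * ∑' S : Finset (V d),
          Pr d (if y ∈ S ∧ z ∈ S ∧ w ∉ S ∧ w ∉ U then E z w S else ∅) := by
        rw [← ENNReal.tsum_mul_left]
        refine tsum_congr fun S => ?_
        split_ifs <;> simp
      rw [h3]
      gcongr
      rw [← measure_iUnion]
      · refine measure_mono ?_
        intro ω hω
        obtain ⟨S, hS⟩ := Set.mem_iUnion.1 hω
        split_ifs at hS with hc
        · obtain ⟨hc1, hc2, hc3, hc4⟩ := hc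
          obtain ⟨hS1, hS2⟩ := hS
          have hS1' : SU U n (opn p ω) = (S : Set (V d)) := hS1
          have hpiv := SU_piv hS1' (y := y) (z := z) (w := w) hc1 hc2 hc3 hc4 hS2
          have hz : z ∈ SU U n (opn p ω) := by rw [hS1']; exact hc2
          have heL : s(z, w) ∈ L := by
            refine mem_tE.2 ⟨(SimpleGraph.mem_edgeSet _).2 hzw, z, Sym2.mem_mk_left _ _, ?_⟩
            rw [coe_bxF]; exact hz.1
          have hop : opL (L.erase s(z, w)) p ω = opL L p ω := by
            ext e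
            rw [mem_opL, mem_opL, Finset.mem_erase]
            constructor
            · rintro ⟨⟨-, h⟩, h'⟩; exact ⟨h, h'⟩
            · rintro ⟨h, h'⟩
              refine ⟨⟨?_, h⟩, h'⟩
              rintro rfl
              exact hpiv.1 ⟨hL _ h, h'⟩
          refine ⟨hz, by rw [hS1']; exact hc3, heL, ⟨?_, ?_⟩, hpiv.1⟩
          · rw [hop, Finset.coe_insert, coe_opL hL]
            have h4 := (RU_inter (U := U) (n := n) (y := y) (O := insert s(z, w) (opn p ω)) (by
              intro e he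
              rcases he with rfl | he
              · exact (SimpleGraph.mem_edgeSet _).2 hzw
              · exact he.1)).1 hpiv.2.2
            refine RU_mono ?_ h4
            rintro e ⟨he | he, he'⟩
            · exact Or.inl he
            · exact Or.inr ⟨he, he'⟩
          · rw [hop, coe_opL hL]
            intro h4
            exact hpiv.2.1 (RU_mono Set.inter_subset_left h4)
        · exact absurd hS (Set.notMem_empty _)
      · intro S S' hne
        refine Set.disjoint_left.2 ?_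
        intro ω h5 h6
        beta_reduce at h5 h6
        split_ifs at h5 h6 with hc hc'
        · apply hne
          have h7 : (S : Set (V d)) = (S' : Set (V d)) := (Eq.symm h5.1).trans h6.1
          exact_mod_cast h7
        all_goals first | exact absurd h5 (Set.notMem_empty _) | exact absurd h6 (Set.notMem_empty _)
      · intro S
        split_ifs
        · exact hE z w S
        · exact MeasurableSet.empty
    · have h3 : J p (w - z) = 0 := J_zero_of_ne p hzw
      simp [h3]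
  refine (ENNReal.tsum_le_tsum fun z => ENNReal.tsum_le_tsum fun w => step2 z w).trans ?_
  simp_rw [ENNReal.tsum_mul_left]
  gcongr
  -- integrate the pointwise inequality
  have h4 : ∀ z w, Pr d (E' z w) = ∫⁻ ω, (E' z w).indicator 1 ω ∂(Pr d) := fun z w =>
    (lintegral_indicator_one (hE' z w)).symm
  have h5 : ∑' z : V d, ∑' w : V d, Pr d (E' z w) =
      ∫⁻ ω, ∑' z : V d, ∑' w : V d, (E' z w).indicator 1 ω ∂(Pr d) := by
    rw [lintegral_tsum]
    · refine tsum_congr fun z => ?_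
      rw [lintegral_tsum]
      · exact tsum_congr fun w => h4 z w
      · exact fun w => (measurable_one.indicator (hE' z w)).aemeasurable
    · exact fun z => (Measurable.ennreal_tsum fun w =>
        measurable_one.indicator (hE' z w)).aemeasurable
  have h6 : ∑ e ∈ L, Pr d (Pev U n y L p e ∩ {ω | e ∉ opn p ω}) =
      ∫⁻ ω, ∑ e ∈ L, (Pev U n y L p e ∩ {ω | e ∉ opn p ω}).indicator 1 ω ∂(Pr d) := by
    rw [lintegral_finsetSum]
    · refine Finset.sum_congr rfl fun e _ => ?_
      exact (lintegral_indicator_one ((meas_Pev U n y L p e).inter (opn_MES p e).compl)).symm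
    · exact fun e _ => measurable_one.indicator ((meas_Pev U n y L p e).inter (opn_MES p e).compl)
  rw [h5, h6]
  refine lintegral_mono fun ω => ?_
  have h7 := count_edges (SU U n (opn p ω)) (fun e => if e ∈ L then
    (Pev U n y L p e ∩ {ω | e ∉ opn p ω}).indicator 1 ω else 0)
  have h8 : ∑' e, (if e ∈ L then
      (Pev U n y L p e ∩ {ω | e ∉ opn p ω}).indicator (1 : Om d → ℝ≥0∞) ω else 0) =
      ∑ e ∈ L, (Pev U n y L p e ∩ {ω | e ∉ opn p ω}).indicator 1 ω := by
    rw [tsum_eq_sum (s := L)]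
    · exact Finset.sum_congr rfl fun e he => if_pos he
    · intro e he; exact if_neg he
  rw [h8] at h7
  refine le_trans (ENNReal.tsum_le_tsum fun z => ENNReal.tsum_le_tsum fun w => ?_) h7
  by_cases hq : ω ∈ E' z w
  · rw [Set.indicator_of_mem hq, Set.indicator_of_mem (show (z, w) ∈ {q : V d × V d |
      q.1 ∈ SU U n (opn p ω) ∧ q.2 ∉ SU U n (opn p ω)} from ⟨hq.1, hq.2.1⟩)]
    show _ ≤ (if s(z, w) ∈ L then _ else _)
    rw [if_pos hq.2.2.1, Set.indicator_of_mem hq.2.2.2]
  · rw [Set.indicator_of_notMem hq]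
    exact zero_le

end Pool.Agent.PB.S3
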