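import Pool.Agent.PB.C.Defs

/-!
# PROJECT PB, module C-SU: deterministic lemmas about `SU U n O` (vertices of the box, off `U`, not
connected to the complement of the box off `U`)

`(Del.ofSet U).rem O = {e ∈ O | no endpoint in U}` (`Del.ofSet_rem`). Write `O^U`.
PLAN.
* `RU_of_edge`: `a, b ∉ U`, `s(a,b) ∈ O`, `RU U n b O → RU U n a O` (`Rch.head`).
* `SU_local`: `O`, `O'` agree off `ins S`. Let `SU U n O = S`, `v ∈ bx`, `v ∉ U`.
  (a) `v ∈ S` and `Rch O'^U v t`, `t ∉ bx` (so `t ∉ S`): crossing edge of `S`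
  (`Rch.exists_cross`): `a ∈ S`, `b ∉ S`, `s(a,b) ∈ O'^U`; it is not in `ins S`, so in `O^U`;
  `b ∉ U`. If `b ∉ bx` then `RU U n a O`, if `b ∈ bx` then (`b ∉ S`) `RU U n b O`, hence
  `RU U n a O`: contradiction to `a ∈ S`. (b) `v ∉ S`: `Rch O^U v t`, `t ∉ bx`: every vertex on
  the way is not in `S` (induct from `v` with the statement `Rch O'^U v a ∧ a ∉ S`: if `a ∉ S`
  and `s(a,b) ∈ O^U` then `b ∉ S`, since `b ∈ S` would give, with `a ∉ U`, either `a ∉ bx` (then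
  `RU U n b O`) or `a ∈ bx`, `a ∉ U`, `a ∉ S`, so `RU U n a O`, so `RU U n b O`), and the edge is
  not in `ins S` (it has the endpoint `a ∉ S`), so it is in `O'^U`.
* `SU_piv`: edge `s(z,w)` open would give `RU U n z O` (as in (a)); `Rch (O ∩ ins S) y z` is off `U`
  because `S` is disjoint from `U`; `w ∉ bx` or `RU U n w O`; so `RU U n y (insert s(z,w) O)`.
* `RU_inter`: if `y ∉ bx` both sides are true (take `t = y`). Otherwise `Rch.exists_first_cross`
  with `K = bx n 0`: the edges inside the box and the crossing edge all touch the box, so they are in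
  `tE (bxF d n)` (`mem_tE`, `coe_bxF`).
-/

set_option autoImplicit false
open MeasureTheory Filter Topology
open scoped ENNReal BigOperators

namespace Pool.Agent.PB.S3

variable {d : ℕ} {U : Set (V d)} {n : ℕ}

private theorem mk_mem_rem {a b : V d} {O : Set (Sym2 (V d))} :
    s(a, b) ∈ (Del.ofSet U).rem O ↔ s(a, b) ∈ O ∧ a ∉ U ∧ b ∉ U := by
  rw [Del.ofSet_rem]
  constructor
  · rintro ⟨h, h'⟩
    exact ⟨h, h' a (Sym2.mem_mk_left a b), h' b (Sym2.mem_mk_right a b)⟩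
  · rintro ⟨h, ha, hb⟩
    refine ⟨h, fun x hx => ?_⟩
    rcases Sym2.mem_iff.1 hx with rfl | rfl
    · exact ha
    · exact hb

private theorem RU_refl {a : V d} {O : Set (Sym2 (V d))} (ha : a ∉ bx n (0 : V d)) :
    RU U n a O := ⟨a, ha, Rch.refl _ _⟩

private theorem RU_of_notMem {S : Set (V d)} {O : Set (Sym2 (V d))} (hS : SU U n O = S) {a : V d}
    (haU : a ∉ U) (haS : a ∉ S) : RU U n a O := by
  by_contra hn
  apply haS
  rw [← hS]
  refine ⟨?_, haU, hn⟩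
  by_contra hb
  exact hn (RU_refl hb)

theorem RU_of_edge {a b : V d} {O : Set (Sym2 (V d))} (ha : a ∉ U) (hb : b ∉ U)
    (h : s(a, b) ∈ O) (hr : RU U n b O) : RU U n a O := by
  obtain ⟨t, ht, hr⟩ := hr
  exact ⟨t, ht, Rch.head (mk_mem_rem.2 ⟨h, ha, hb⟩) hr⟩

theorem SU_local {S : Set (V d)} {O O' : Set (Sym2 (V d))} (h : O \ ins S = O' \ ins S)
    (hS : SU U n O = S) : SU U n O' = S := by
  have hSb : ∀ a ∈ S, a ∈ bx n (0 : V d) ∧ a ∉ U ∧ ¬ RU U n a O := by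
    intro a ha
    rw [← hS] at ha
    exact ha
  ext v
  constructor
  · rintro ⟨hvb, hvU, hvR⟩
    by_contra hvS
    apply hvR
    obtain ⟨t, ht, hr⟩ := RU_of_notMem hS hvU hvS
    refine ⟨t, ht, ?_⟩
    have key : Rch ((Del.ofSet U).rem O') v t ∧ t ∉ S := by
      refine Rch.induct (P := fun a => Rch ((Del.ofSet U).rem O') v a ∧ a ∉ S)
        ⟨Rch.refl _ _, hvS⟩ ?_ hr
      intro a b _ hab ha
      obtain ⟨habO, haU, hbU⟩ := mk_mem_rem.1 hab
      have haR : RU U n a O := RU_of_notMem hS haU ha.2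
      have hbR : RU U n b O := RU_of_edge hbU haU (by rwa [Sym2.eq_swap]) haR
      have hbS : b ∉ S := fun hb => (hSb b hb).2.2 hbR
      refine ⟨ha.1.tail (mk_mem_rem.2 ⟨?_, haU, hbU⟩), hbS⟩
      have h1 : s(a, b) ∈ O \ ins S := ⟨habO, fun hi => ha.2 (hi a (Sym2.mem_mk_left a b))⟩
      rw [h] at h1
      exact h1.1
    exact key.1
  · intro hvS
    obtain ⟨hvb, hvU, hvR⟩ := hSb v hvS
    refine ⟨hvb, hvU, ?_⟩
    rintro ⟨t, ht, hr⟩
    have htS : t ∉ S := fun hh => ht (hSb t hh).1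
    obtain ⟨a, b, ha, hb, hab, -⟩ := Rch.exists_cross S hvS htS hr
    obtain ⟨habO', haU, hbU⟩ := mk_mem_rem.1 hab
    have h1 : s(a, b) ∈ O' \ ins S := ⟨habO', fun hi => hb (hi b (Sym2.mem_mk_right a b))⟩
    rw [← h] at h1
    exact (hSb a ha).2.2 (RU_of_edge haU hbU h1.1 (RU_of_notMem hS hbU hb))

theorem SU_piv {S : Set (V d)} {O : Set (Sym2 (V d))} {y z w : V d} (hS : SU U n O = S)
    (hy : y ∈ S) (hz : z ∈ S) (hw : w ∉ S) (hwU : w ∉ U) (hr : Rch (O ∩ ins S) y z) :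
    s(z, w) ∉ O ∧ ¬ RU U n y O ∧ RU U n y (insert s(z, w) O) := by
  have hSb : ∀ a ∈ S, a ∈ bx n (0 : V d) ∧ a ∉ U ∧ ¬ RU U n a O := by
    intro a ha
    rw [← hS] at ha
    exact ha
  have hwR : RU U n w O := RU_of_notMem hS hwU hw
  refine ⟨fun hzw => (hSb z hz).2.2 (RU_of_edge (hSb z hz).2.1 hwU hzw hwR), (hSb y hy).2.2, ?_⟩
  obtain ⟨t, ht, hwt⟩ := hwR
  refine ⟨t, ht, ?_⟩
  have s1 : O ∩ ins S ⊆ (Del.ofSet U).rem (insert s(z, w) O) := by
    rintro e ⟨he, hi⟩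
    rw [Del.ofSet_rem]
    exact ⟨Or.inr he, fun x hx => (hSb x (hi x hx)).2.1⟩
  have s2 : (Del.ofSet U).rem O ⊆ (Del.ofSet U).rem (insert s(z, w) O) :=
    Del.rem_mono _ (Set.subset_insert _ _)
  exact ((hr.mono s1).tail (mk_mem_rem.2 ⟨Set.mem_insert _ _, (hSb z hz).2.1, hwU⟩)).trans
    (hwt.mono s2)

theorem RU_inter {y : V d} {O : Set (Sym2 (V d))} (hO : O ⊆ (lat d).edgeSet) :
    RU U n y O ↔ RU U n y (O ∩ (tE (bxF d n) : Set (Sym2 (V d)))) := by
  constructor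
  · rintro ⟨t, ht, hr⟩
    by_cases hy : y ∈ bx n (0 : V d)
    · obtain ⟨a, b, ha, hb, hab, hya⟩ := Rch.exists_first_cross (bx n (0 : V d)) hy ht hr
      obtain ⟨habO, haU, hbU⟩ := mk_mem_rem.1 hab
      refine ⟨b, hb, ?_⟩
      have htouch : ∀ e ∈ O, ∀ x ∈ e, x ∈ bx n (0 : V d) → e ∈ (tE (bxF d n) : Set (Sym2 (V d))) := by
        intro e he x hx hxb
        rw [Finset.mem_coe, mem_tE]
        refine ⟨hO he, x, hx, ?_⟩
        rw [coe_bxF]
        exact hxb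
      have s1 : {e ∈ (Del.ofSet U).rem O | ∀ z ∈ e, z ∈ bx n (0 : V d)} ⊆
          (Del.ofSet U).rem (O ∩ (tE (bxF d n) : Set (Sym2 (V d)))) := by
        rintro e ⟨he, hi⟩
        rw [Del.ofSet_rem] at he ⊢
        refine ⟨⟨he.1, ?_⟩, he.2⟩
        induction e using Sym2.ind with
        | _ p q => exact htouch _ he.1 p (Sym2.mem_mk_left p q) (hi p (Sym2.mem_mk_left p q))
      exact (hya.mono s1).tail (mk_mem_rem.2
        ⟨⟨habO, htouch _ habO a (Sym2.mem_mk_left a b) ha⟩, haU, hbU⟩)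
    · exact RU_refl hy
  · exact RU_mono Set.inter_subset_left

end Pool.Agent.PB.S3
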